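import Pool.Agent.Lib.MP_c29043_lc.SW.Spec

/-!
# Correctness of the algorithm
-/

set_option autoImplicit false

open N68a2faeb N487b59b3 Pool.Agent.Lib.PolyTime

namespace Pool.Agent.Lib.MP_c29043_lc.SW

private theorem Cor_fold (hStp : S_Stp) (hNxt : S_Nxt) (A : List ((ℕ × ℕ) × ℕ))
    (hev : ∀ e ∈ A, Even e.2) (hsep : Sep A) (X : List ((ℕ × ℕ) × ℕ)) :
    ∀ (k : ℕ) (s : ℕ × (List (ℕ × ℕ) × List (ℕ × ℕ))), St A s →
      (s.1 = 0 ∨ (A.filter fun e => decide (e.2 ≤ s.1)).length + k ≤ A.length) →
      St A (X.foldl (fun s _ => stg A s) s) ∧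
        ((X.foldl (fun s _ => stg A s) s).1 = 0 ∨
          (A.filter fun e => decide (e.2 ≤ (X.foldl (fun s _ => stg A s) s).1)).length +
            (k + X.length) ≤ A.length) := by
  induction X with
  | nil =>
    intro k s hs hk
    exact ⟨hs, hk⟩
  | cons x X ih =>
    intro k s hs hk
    have hst : St A (stg A s) := hStp A s hev hsep hs
    have h1 : (stg A s).1 = nxt A s.1 := rfl
    obtain ⟨-, h3, h4⟩ := hNxt A s.1 hev hsep hs.inv.wt
    have h5 : (stg A s).1 = 0 ∨
        (A.filter fun e => decide (e.2 ≤ (stg A s).1)).length + (k + 1) ≤ A.length := by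
      rw [h1]
      rcases Nat.eq_zero_or_pos s.1 with h0 | h0
      · exact Or.inl (h3 h0)
      · right
        have h6 := h4 h0
        rcases hk with hk | hk
        · omega
        · omega
    have h7 := ih (k + 1) (stg A s) hst h5
    rw [List.foldl_cons, List.length_cons]
    refine ⟨h7.1, ?_⟩
    rcases h7.2 with h8 | h8
    · exact Or.inl h8
    · right
      omega

theorem tCor (hStp : S_Stp) (hIni : S_Ini) (hNxt : S_Nxt) : S_Cor := by
  intro A hev hsep
  obtain ⟨hs, hk⟩ := Cor_fold hStp hNxt A hev hsep A 0 (ini A) (hIni A) (Or.inr (by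
    rw [add_zero]
    exact List.length_filter_le _ _))
  obtain ⟨s, hsdef⟩ : ∃ s, s = A.foldl (fun s _ => stg A s) (ini A) := ⟨_, rfl⟩
  rw [← hsdef] at hs hk
  have h0 : s.1 = 0 := by
    rcases hk with h | h
    · exact h
    · by_contra hne
      rcases hs.inv.wt with h1 | ⟨e, he, h1⟩
      · exact hne h1
      · have h2 : e ∈ A.filter fun e => decide (e.2 ≤ s.1) := by
          rw [List.mem_filter]
          exact ⟨he, by simp [h1]⟩
        have h3 := List.length_pos_of_mem h2
        omega
  have hinv := hs.inv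
  rw [h0] at hinv
  have hhl : vec s.2.2 = vec s.2.1 := by
    funext v
    rcases hinv.width v with h | h
    · exact h
    · simpa using h
  have halg : alg A = s.2.1 := by
    rw [hsdef]
    rfl
  rw [halg]
  apply isCover_of_fix
  intro v
  apply le_antisymm
  · have := hinv.up v
    rwa [hhl] at this
  · have := hinv.low v
    rwa [hhl] at this

end Pool.Agent.Lib.MP_c29043_lc.SW
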