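import Pool.Agent.Lib.MP_c29043_lc.Defs

/-!
# Separated weights: the definition
-/

set_option autoImplicit false

namespace Pool.Agent.Lib.MP_c29043_lc

/-- Any two different arc weights differ by a factor of at least `r`. -/
def SepR (r : ℝ) (A : List ((ℕ × ℕ) × ℕ)) : Prop :=
  ∀ a ∈ A, ∀ b ∈ A, a.2 < b.2 → r * (a.2 : ℝ) ≤ (b.2 : ℝ)

end Pool.Agent.Lib.MP_c29043_lc
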