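import Pool.Agent.Lib.MP_c29043_lc.Defs

/-!
# Separated weights with at most two weights per scale: the definition
-/

set_option autoImplicit false

namespace Pool.Agent.Lib.MP_c29043_lc

/-- Any two different arc weights differ by a factor of at least `r`, and of any three different
arc weights the largest is at least `R` times the smallest. -/
def SepRR (r R : ℝ) (A : List ((ℕ × ℕ) × ℕ)) : Prop :=
  (∀ a ∈ A, ∀ b ∈ A, a.2 < b.2 → r * (a.2 : ℝ) ≤ (b.2 : ℝ)) ∧
    ∀ a ∈ A, ∀ b ∈ A, ∀ c ∈ A, a.2 < b.2 → b.2 < c.2 → R * (a.2 : ℝ) ≤ (c.2 : ℝ)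

end Pool.Agent.Lib.MP_c29043_lc
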