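import Pool.Agent.Lib.MP_c29043_lc.SW.Spec

/-!
# Covers of digraphs with separated weights: the reduced weights
-/

set_option autoImplicit false

open N68a2faeb N487b59b3 Pool.Agent.Lib.PolyTime

namespace Pool.Agent.Lib.MP_c29043_lc.SW

theorem Dis_nl {A : List ((ℕ × ℕ) × ℕ)} {lam m : ℕ} {L0 H0 L H : ℕ → ℕ} {v : ℕ}
    (h2 : 2 * m ≤ lam) (hK : Kind A lam m L0 H0 L H v) :
    nl L0 H0 L H v = L0 v ∨ L0 v + m ≤ nl L0 H0 L H v := by
  rcases hK with ⟨h0, h1, h2', h3, h4⟩ | ⟨h0, h1, h2', h3, h4, h5, h6⟩ |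
    ⟨h0, h1, h2', h3, h4, h5, h6⟩ | ⟨h0, h1, h2', h3, h4, h5, h6⟩ | ⟨h, h0, h1, h2', h3, h4, h5, h6⟩
  · left; exact h3
  · right; omega
  · right; omega
  · left; exact h3
  · right; omega

theorem tDis : S_Dis := by
  intro A lam m L0 H0 L H hI hG hK hU e he
  have hlt := hG.lt
  have h2 := hG.two
  have ku := hK e.1.1
  have kv := hK e.1.2
  have gu := Dis_nl h2 ku
  have gv := Dis_nl h2 kv
  have t0 := le_T_add (x := L0) he
  have tL := le_T_add (x := L) he
  have tN := le_T_add (x := nl L0 H0 L H) he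
  have hup := hI.up e.1.2
  have hUv := hU e.1.2
  rcases hI.dis e he with h | ⟨c, hc, hcl, hce⟩
  · left
    omega
  · rcases Nat.lt_or_ge c lam with hc1 | hc1
    · have hcm := hG.max c hc hc1
      rcases gu with gu | gu
      · rcases gv with gv | gv
        · right
          exact ⟨c, hc, hcm, by omega⟩
        · left
          omega
      · left
        omega
    · have hcL : c = lam := le_antisymm hcl hc1
      subst hcL
      rcases kv with ⟨b0, b1, b2, b3, b4⟩ | ⟨b0, b1, b2, b3, b4, b5, b6⟩ |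
        ⟨b0, b1, b2, b3, b4, b5, b6⟩ | ⟨b0, b1, b2, b3, b4, b5, b6⟩ |
        ⟨b, b0, b1, b2, b3, b4, b5, b6⟩
      · exfalso
        omega
      · left
        have h7 := hUv b0 b5 b6
        omega
      · rcases ku with ⟨a0, a1, a2, a3, a4⟩ | ⟨a0, a1, a2, a3, a4, a5, a6⟩ |
          ⟨a0, a1, a2, a3, a4, a5, a6⟩ | ⟨a0, a1, a2, a3, a4, a5, a6⟩ |
          ⟨a, a0, a1, a2, a3, a4, a5, a6⟩
        · right
          exact ⟨m, hG.wt, le_rfl, by omega⟩
        · left
          omega
        · left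
          omega
        · right
          exact ⟨m, hG.wt, le_rfl, by omega⟩
        · left
          omega
      · rcases ku with ⟨a0, a1, a2, a3, a4⟩ | ⟨a0, a1, a2, a3, a4, a5, a6⟩ |
          ⟨a0, a1, a2, a3, a4, a5, a6⟩ | ⟨a0, a1, a2, a3, a4, a5, a6⟩ |
          ⟨a, a0, a1, a2, a3, a4, a5, a6⟩
        · exfalso
          omega
        · exfalso
          omega
        · right
          exact ⟨m, hG.wt, le_rfl, by omega⟩
        · exfalso
          omega
        · right
          exact ⟨m, hG.wt, le_rfl, by omega⟩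
      · rcases ku with ⟨a0, a1, a2, a3, a4⟩ | ⟨a0, a1, a2, a3, a4, a5, a6⟩ |
          ⟨a0, a1, a2, a3, a4, a5, a6⟩ | ⟨a0, a1, a2, a3, a4, a5, a6⟩ |
          ⟨a, a0, a1, a2, a3, a4, a5, a6⟩
        · exfalso
          omega
        · exfalso
          omega
        · left
          omega
        · exfalso
          omega
        · left
          omega

end Pool.Agent.Lib.MP_c29043_lc.SW
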