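import Pool.Agent.Lib.MP_c29043_lc.SW.Spec

/-!
# Separated weights, module Fix: the rounds of a stage become stable

Every corner takes two values at a vertex, and the corners move monotonically, so there are at most
two changes for each vertex.
-/

set_option autoImplicit false

open N68a2faeb N487b59b3 Pool.Agent.Lib.PolyTime

namespace Pool.Agent.Lib.MP_c29043_lc.SW

private theorem Fix_two (A : List ((ℕ × ℕ) × ℕ)) (m : ℕ) (L0 H0 : ℕ → ℕ) (k v : ℕ) :
    ((it A L0 H0 m k).1 v = L0 v ∨ (it A L0 H0 m k).1 v = max (L0 v) (H0 v - m)) ∧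
    ((it A L0 H0 m k).2 v = H0 v ∨ (it A L0 H0 m k).2 v = min (H0 v) (L0 v + m)) := by
  cases k with
  | zero => exact ⟨Or.inl rfl, Or.inl rfl⟩
  | succ k =>
    have e1 : (it A L0 H0 m (k + 1)).1 v = lo L0 H0 m (T A (it A L0 H0 m k).2) v := rfl
    have e2 : (it A L0 H0 m (k + 1)).2 v = hi L0 H0 m (T A (it A L0 H0 m k).1) v := rfl
    rw [e1, e2, lo, hi]
    constructor
    · by_cases h : H0 v - m ≤ T A (it A L0 H0 m k).2 v
      · rw [if_pos h]
        exact Or.inr rfl
      · rw [if_neg h]
        exact Or.inl rfl
    · by_cases h : T A (it A L0 H0 m k).1 v ≤ L0 v + m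
      · rw [if_pos h]
        exact Or.inr rfl
      · rw [if_neg h]
        exact Or.inl rfl

private theorem Fix_zero (A : List ((ℕ × ℕ) × ℕ)) (m : ℕ) (L0 H0 : ℕ → ℕ) (k v : ℕ)
    (h : L0 v = 0 ∧ H0 v = 0) : (it A L0 H0 m k).1 v = 0 ∧ (it A L0 H0 m k).2 v = 0 := by
  obtain ⟨h1, h2⟩ := Fix_two A m L0 H0 k v
  rw [h.1, h.2] at h1 h2
  constructor
  · rcases h1 with h1 | h1
    · exact h1
    · rw [h1]
      omega
  · rcases h2 with h2 | h2
    · exact h2
    · rw [h2]
      omega

/-- Fix: the rounds become stable. -/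
theorem tFix : S_Fix := by
  intro A m L0 H0 hsupp hmon
  have hP0 : ∀ k v, L0 v ≤ (it A L0 H0 m k).1 v := by
    intro k v
    induction k with
    | zero => exact le_rfl
    | succ k ih => exact ih.trans (hmon k v).2.1
  have hQ0 : ∀ k v, (it A L0 H0 m k).2 v ≤ H0 v := by
    intro k v
    induction k with
    | zero => exact le_rfl
    | succ k ih => exact (hmon k v).2.2.trans ih
  set V : Finset ℕ := (verts A).toFinset with hV
  have hVc : V.card ≤ (verts A).length := List.toFinset_card_le _
  set F : ℕ → Finset ℕ := fun k => V.filter fun v => (it A L0 H0 m k).1 v ≠ L0 v with hF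
  set G : ℕ → Finset ℕ := fun k => V.filter fun v => (it A L0 H0 m k).2 v ≠ H0 v with hG
  have hFc : ∀ k, (F k).card ≤ V.card := fun k => Finset.card_filter_le _ _
  have hGc : ∀ k, (G k).card ≤ V.card := fun k => Finset.card_filter_le _ _
  have hFsub : ∀ k, F k ⊆ F (k + 1) := by
    intro k v hv
    rw [hF, Finset.mem_filter] at hv ⊢
    refine ⟨hv.1, ?_⟩
    have h1 := hP0 k v
    have h2 := (hmon k v).2.1
    have h3 := hv.2
    omega
  have hGsub : ∀ k, G k ⊆ G (k + 1) := by
    intro k v hv
    rw [hG, Finset.mem_filter] at hv ⊢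
    refine ⟨hv.1, ?_⟩
    have h1 := hQ0 k v
    have h2 := (hmon k v).2.2
    have h3 := hv.2
    omega
  have hstep : ∀ k, it A L0 H0 m (k + 1) ≠ it A L0 H0 m k →
      (F k).card + (G k).card < (F (k + 1)).card + (G (k + 1)).card := by
    intro k hne
    have hFle := Finset.card_le_card (hFsub k)
    have hGle := Finset.card_le_card (hGsub k)
    have hex : ∃ v, (it A L0 H0 m (k + 1)).1 v ≠ (it A L0 H0 m k).1 v ∨
        (it A L0 H0 m (k + 1)).2 v ≠ (it A L0 H0 m k).2 v := by
      by_contra hcon
      push Not at hcon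
      apply hne
      apply Prod.ext
      · funext v
        exact (hcon v).1
      · funext v
        exact (hcon v).2
    obtain ⟨v, hv⟩ := hex
    have hvV : v ∈ V := by
      by_contra hcon
      rw [hV, List.mem_toFinset] at hcon
      have h0 := hsupp v hcon
      obtain ⟨a1, a2⟩ := Fix_zero A m L0 H0 k v h0
      obtain ⟨b1, b2⟩ := Fix_zero A m L0 H0 (k + 1) v h0
      omega
    obtain ⟨p1, p2⟩ := Fix_two A m L0 H0 k v
    obtain ⟨q1, q2⟩ := Fix_two A m L0 H0 (k + 1) v
    have m1 := (hmon k v).2.1
    have m2 := (hmon k v).2.2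
    have n1 := hP0 k v
    have n2 := hQ0 k v
    rcases hv with hv | hv
    · have hlt : (F k).card < (F (k + 1)).card := by
        apply Finset.card_lt_card
        rw [Finset.ssubset_iff_of_subset (hFsub k)]
        refine ⟨v, ?_, ?_⟩
        · rw [hF, Finset.mem_filter]
          refine ⟨hvV, ?_⟩
          omega
        · rw [hF, Finset.mem_filter]
          rintro ⟨-, hc⟩
          rcases p1 with p1 | p1
          · exact hc p1
          · rcases q1 with q1 | q1
            · omega
            · exact hv (q1.trans p1.symm)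
      omega
    · have hlt : (G k).card < (G (k + 1)).card := by
        apply Finset.card_lt_card
        rw [Finset.ssubset_iff_of_subset (hGsub k)]
        refine ⟨v, ?_, ?_⟩
        · rw [hG, Finset.mem_filter]
          refine ⟨hvV, ?_⟩
          omega
        · rw [hG, Finset.mem_filter]
          rintro ⟨-, hc⟩
          rcases p2 with p2 | p2
          · exact hc p2
          · rcases q2 with q2 | q2
            · omega
            · exact hv (q2.trans p2.symm)
      omega
  have hex : ∃ j, j ≤ 2 * (verts A).length ∧ it A L0 H0 m (j + 1) = it A L0 H0 m j := by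
    by_contra hcon
    push Not at hcon
    have hcount : ∀ j, j ≤ 2 * (verts A).length + 1 → j ≤ (F j).card + (G j).card := by
      intro j
      induction j with
      | zero => intro _; exact Nat.zero_le _
      | succ j ih =>
        intro hj
        have h1 := ih (by omega)
        have h2 := hstep j (hcon j (by omega))
        omega
    have h1 := hcount (2 * (verts A).length + 1) le_rfl
    have h2 := hFc (2 * (verts A).length + 1)
    have h3 := hGc (2 * (verts A).length + 1)
    omega
  obtain ⟨j, hj, hst⟩ := hex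
  have hall : ∀ i, it A L0 H0 m (j + i) = it A L0 H0 m j := by
    intro i
    induction i with
    | zero => rfl
    | succ i ih =>
      have e : it A L0 H0 m (j + (i + 1)) =
          (lo L0 H0 m (T A (it A L0 H0 m (j + i)).2), hi L0 H0 m (T A (it A L0 H0 m (j + i)).1)) :=
        rfl
      rw [e, ih]
      exact hst
  have hfin : it A L0 H0 m (2 * (verts A).length + 1) = it A L0 H0 m (2 * (verts A).length) := by
    obtain ⟨i, hi⟩ : ∃ i, 2 * (verts A).length = j + i := ⟨2 * (verts A).length - j, by omega⟩
    rw [hi, hall i]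
    exact hall (i + 1)
  refine ⟨fun v => (hmon _ v).1, fun v => ?_, fun v => ?_⟩
  · have e : (it A L0 H0 m (2 * (verts A).length + 1)).1 v =
        lo L0 H0 m (T A (it A L0 H0 m (2 * (verts A).length)).2) v := rfl
    rw [← e, hfin]
  · have e : (it A L0 H0 m (2 * (verts A).length + 1)).2 v =
        hi L0 H0 m (T A (it A L0 H0 m (2 * (verts A).length)).1) v := rfl
    rw [← e, hfin]

end Pool.Agent.Lib.MP_c29043_lc.SW
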