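import Pool.Agent.Lib.MP_c29043_lc.HardAlg
import Pool.Agent.Lib.MP_c29043_lc.SW.DefR
import Pool.Agent.Lib.PolyTime.Mul

/-!
# Weights separated by a factor below two: as hard as mean payoff games

A path `u → p → q → v` with weights `W`, `2 W - w`, `W` (`w ≤ W`, `p`, `q` new) acts exactly as an
arc `u → v` of weight `w`.
-/

set_option autoImplicit false

open N68a2faeb N487b59b3 Pool.Agent.Lib.PolyTime

namespace Pool.Agent.Lib.MP_c29043_lc

variable {α : Type} [N487b59b3 α]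

/-- the nodes of the gadget -/
def sN (a : (ℕ × ℕ) × ℕ) (i : ℕ) : ℕ := name (a, i)

/-- the old nodes -/
def sV (v : ℕ) : ℕ := sN ((v, v), 0) 0

theorem sN_inj {a a' : (ℕ × ℕ) × ℕ} {i i' : ℕ} : sN a i = sN a' i' ↔ a = a' ∧ i = i' := by
  constructor
  · intro h
    have := name_injective h
    simpa using this
  · rintro ⟨rfl, rfl⟩; rfl

theorem sV_inj {v v' : ℕ} : sV v = sV v' ↔ v = v' := by
  unfold sV
  rw [sN_inj]
  constructor
  · rintro ⟨h, _⟩
    exact congrArg (fun a : (ℕ × ℕ) × ℕ => a.1.1) h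
  · rintro rfl; exact ⟨rfl, rfl⟩

/-- the weights smaller than `w` -/
def lows (A : List ((ℕ × ℕ) × ℕ)) (w : ℕ) : List ℕ :=
  (A.filter fun a => decide (a.2 < w)).map fun a => a.2

/-- the outer weight of the path that replaces an arc of weight `w` -/
def bigW (c : ℕ) (A : List ((ℕ × ℕ) × ℕ)) (w : ℕ) : ℕ :=
  dbl (lows A w) (dbl (lows A w) (2 * (c * (wts A + 1))))

/-- the new digraph -/
def seps (c : ℕ) (A : List ((ℕ × ℕ) × ℕ)) : List ((ℕ × ℕ) × ℕ) :=
  (A.map fun a => ((sV a.1.1, sN a 1), bigW c A a.2)) ++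
    ((A.map fun a => ((sN a 1, sN a 2), 2 * bigW c A a.2 - a.2)) ++
      (A.map fun a => ((sN a 2, sV a.1.2), bigW c A a.2)))

theorem mem_seps {c : ℕ} {A : List ((ℕ × ℕ) × ℕ)} {f : (ℕ × ℕ) × ℕ} : f ∈ seps c A ↔
    (∃ a ∈ A, ((sV a.1.1, sN a 1), bigW c A a.2) = f) ∨
    (∃ a ∈ A, ((sN a 1, sN a 2), 2 * bigW c A a.2 - a.2) = f) ∨
    (∃ a ∈ A, ((sN a 2, sV a.1.2), bigW c A a.2) = f) := by
  unfold seps
  simp only [List.mem_append, List.mem_map]

theorem bigW_eq (c : ℕ) (A : List ((ℕ × ℕ) × ℕ)) (w : ℕ) :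
    bigW c A w = 4 ^ (lows A w).length * (2 * (c * (wts A + 1))) := by
  unfold bigW
  rw [dbl_eq, dbl_eq, ← mul_assoc, ← mul_pow]
  norm_num

theorem le_bigW (c : ℕ) (A : List ((ℕ × ℕ) × ℕ)) (w : ℕ) :
    2 * (c * (wts A + 1)) ≤ bigW c A w := by
  rw [bigW_eq]
  exact Nat.le_mul_of_pos_left _ (by positivity)

theorem lt_bigW {c : ℕ} (hc : 1 ≤ c) {A : List ((ℕ × ℕ) × ℕ)} {a : (ℕ × ℕ) × ℕ} (ha : a ∈ A) :
    a.2 < bigW c A a.2 := by
  have h1 := le_bigW c A a.2
  have h2 := le_wts a ha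
  have h3 : 1 * (wts A + 1) ≤ c * (wts A + 1) := Nat.mul_le_mul_right _ hc
  omega

theorem even_bigW (c : ℕ) (A : List ((ℕ × ℕ) × ℕ)) (w : ℕ) : Even (bigW c A w) := by
  rw [bigW_eq]
  exact (even_two_mul _).mul_left _

theorem lows_le (A : List ((ℕ × ℕ) × ℕ)) {s w : ℕ} (h : s ≤ w) :
    (lows A s).length ≤ (lows A w).length := by
  unfold lows
  rw [List.length_map, List.length_map]
  induction A with
  | nil => simp
  | cons b A ih =>
    rw [List.filter_cons, List.filter_cons]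
    by_cases h1 : b.2 < s
    · have h2 : b.2 < w := by omega
      simp only [h1, h2, decide_true, if_true, List.length_cons]
      omega
    · by_cases h2 : b.2 < w
      · simp only [h1, h2, decide_true, decide_false, if_true, List.length_cons]
        have h3 : ¬ (false = true) := by decide
        rw [if_neg h3]
        omega
      · simp only [h1, h2, decide_false]
        have h3 : ¬ (false = true) := by decide
        rw [if_neg h3, if_neg h3]
        exact ih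

theorem lows_lt {A : List ((ℕ × ℕ) × ℕ)} {a : (ℕ × ℕ) × ℕ} (ha : a ∈ A) {w : ℕ}
    (h : a.2 < w) : (lows A a.2).length + 1 ≤ (lows A w).length := by
  induction A with
  | nil => simp at ha
  | cons b A ih =>
    unfold lows at ih ⊢
    rw [List.length_map, List.length_map] at ih ⊢
    rw [List.filter_cons, List.filter_cons]
    have h3 : ¬ (false = true) := by decide
    rcases List.mem_cons.1 ha with rfl | ha'
    · have h1 : ¬ a.2 < a.2 := lt_irrefl _
      simp only [h1, h, decide_true, decide_false, if_true, List.length_cons]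
      rw [if_neg h3]
      have h4 := lows_le A h.le
      unfold lows at h4
      rw [List.length_map, List.length_map] at h4
      omega
    · have h5 := ih ha'
      by_cases h1 : b.2 < a.2
      · have h2 : b.2 < w := by omega
        simp only [h1, h2, decide_true, if_true, List.length_cons]
        omega
      · by_cases h2 : b.2 < w
        · simp only [h1, h2, decide_true, decide_false, if_true, List.length_cons]
          rw [if_neg h3]
          omega
        · simp only [h1, h2, decide_false]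
          rw [if_neg h3, if_neg h3]
          exact h5

theorem four_bigW {c : ℕ} {A : List ((ℕ × ℕ) × ℕ)} {a : (ℕ × ℕ) × ℕ} (ha : a ∈ A) {w : ℕ}
    (h : a.2 < w) : 4 * bigW c A a.2 ≤ bigW c A w := by
  rw [bigW_eq, bigW_eq, ← mul_assoc, ← pow_succ']
  exact Nat.mul_le_mul_right _ (Nat.pow_le_pow_right (by norm_num) (lows_lt ha h))

/-- the facts about the path of an arc -/
theorem seps_path {c : ℕ} {A : List ((ℕ × ℕ) × ℕ)} {y : ℕ → ℕ} (hy : IsCover (seps c A) y)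
    {a : (ℕ × ℕ) × ℕ} (ha : a ∈ A) :
    bigW c A a.2 ≤ y (sV a.1.1) + y (sN a 1) ∧
    2 * bigW c A a.2 - a.2 ≤ y (sN a 1) + y (sN a 2) ∧
    bigW c A a.2 ≤ y (sN a 2) + y (sV a.1.2) ∧
    (0 < y (sN a 1) → y (sV a.1.1) + y (sN a 1) = bigW c A a.2) ∧
    (0 < y (sN a 2) → y (sN a 1) + y (sN a 2) = 2 * bigW c A a.2 - a.2) := by
  refine ⟨?_, ?_, ?_, ?_, ?_⟩
  · exact hy.cover ((sV a.1.1, sN a 1), bigW c A a.2) (mem_seps.2 (Or.inl ⟨a, ha, rfl⟩))
  · exact hy.cover ((sN a 1, sN a 2), 2 * bigW c A a.2 - a.2)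
      (mem_seps.2 (Or.inr (Or.inl ⟨a, ha, rfl⟩)))
  · exact hy.cover ((sN a 2, sV a.1.2), bigW c A a.2)
      (mem_seps.2 (Or.inr (Or.inr ⟨a, ha, rfl⟩)))
  · intro h0
    obtain ⟨f, hf, hfz, h1⟩ := hy.tight _ h0
    rcases mem_seps.1 hf with ⟨b, hb, rfl⟩ | ⟨b, hb, rfl⟩ | ⟨b, hb, rfl⟩
    · obtain rfl : b = a := (sN_inj.1 hfz).1
      exact h1
    · have := (sN_inj.1 hfz).2
      omega
    · have := (sN_inj.1 hfz).2
      omega
  · intro h0
    obtain ⟨f, hf, hfz, h1⟩ := hy.tight _ h0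
    rcases mem_seps.1 hf with ⟨b, hb, rfl⟩ | ⟨b, hb, rfl⟩ | ⟨b, hb, rfl⟩
    · have := (sN_inj.1 hfz).2
      omega
    · obtain rfl : b = a := (sN_inj.1 hfz).1
      exact h1
    · have := (sN_inj.1 hfz).2
      omega

/-- Correctness of the gadget. -/
theorem seps_correct {c : ℕ} (hc : 1 ≤ c) {A : List ((ℕ × ℕ) × ℕ)} {y : ℕ → ℕ}
    (hy : IsCover (seps c A) y) : IsCover A fun v => y (sV v) := by
  refine ⟨fun a ha => ?_, fun v hv => ?_⟩
  · obtain ⟨h1, h2, h3, h4, h5⟩ := seps_path hy ha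
    have h6 := lt_bigW hc ha
    show a.2 ≤ y (sV a.1.1) + y (sV a.1.2)
    rcases Nat.eq_zero_or_pos (y (sN a 2)) with h7 | h7
    · omega
    · have h8 := h5 h7
      rcases Nat.eq_zero_or_pos (y (sN a 1)) with h9 | h9
      · omega
      · have h10 := h4 h9
        omega
  · obtain ⟨f, hf, hfz, ht⟩ := hy.tight _ hv
    rcases mem_seps.1 hf with ⟨a, ha, rfl⟩ | ⟨a, ha, rfl⟩ | ⟨a, ha, rfl⟩
    · have := (sN_inj.1 hfz).2
      omega
    · have := (sN_inj.1 hfz).2
      omega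
    · have h0 : a.1.2 = v := sV_inj.1 hfz
      obtain ⟨h1, h2, h3, h4, h5⟩ := seps_path hy ha
      have h6 := lt_bigW hc ha
      refine ⟨a, ha, h0, ?_⟩
      have hv' : 0 < y (sV v) := hv
      have ht' : y (sN a 2) + y (sV v) = bigW c A a.2 := ht
      show y (sV a.1.1) + y (sV v) = a.2
      rcases Nat.eq_zero_or_pos (y (sN a 2)) with h7 | h7
      · rcases Nat.eq_zero_or_pos (y (sN a 1)) with h9 | h9
        · omega
        · have h10 := h4 h9
          omega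
      · have h8 := h5 h7
        rcases Nat.eq_zero_or_pos (y (sN a 1)) with h9 | h9
        · omega
        · have h10 := h4 h9
          omega

theorem even_seps {c : ℕ} {A : List ((ℕ × ℕ) × ℕ)} (hA : ∀ a ∈ A, Even a.2) :
    ∀ f ∈ seps c A, Even f.2 := by
  intro f hf
  rcases mem_seps.1 hf with ⟨a, ha, rfl⟩ | ⟨a, ha, rfl⟩ | ⟨a, ha, rfl⟩
  · exact even_bigW c A a.2
  · exact (even_two_mul _).tsub (hA a ha)
  · exact even_bigW c A a.2

theorem wt_seps {c : ℕ} (hc : 1 ≤ c) {A : List ((ℕ × ℕ) × ℕ)} {f : (ℕ × ℕ) × ℕ}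
    (hf : f ∈ seps c A) :
    ∃ a ∈ A, f.2 = bigW c A a.2 ∨ f.2 + a.2 = 2 * bigW c A a.2 := by
  rcases mem_seps.1 hf with ⟨a, ha, rfl⟩ | ⟨a, ha, rfl⟩ | ⟨a, ha, rfl⟩
  · exact ⟨a, ha, Or.inl rfl⟩
  · refine ⟨a, ha, Or.inr ?_⟩
    have h6 := lt_bigW hc ha
    show 2 * bigW c A a.2 - a.2 + a.2 = 2 * bigW c A a.2
    omega
  · exact ⟨a, ha, Or.inl rfl⟩

theorem sepR_seps {r : ℝ} (hr : r < 2) {c : ℕ} (hc : 1 ≤ c) (hcr : 1 ≤ (c : ℝ) * (2 - r))
    (A : List ((ℕ × ℕ) × ℕ)) : SepR r (seps c A) := by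
  intro f hf g hg hfg
  obtain ⟨a, ha, hfa⟩ := wt_seps hc hf
  obtain ⟨b, hb, hgb⟩ := wt_seps hc hg
  have h1 := lt_bigW hc ha
  have h2 := lt_bigW hc hb
  rcases lt_trichotomy a.2 b.2 with h | h | h
  · have h3 : 4 * bigW c A a.2 ≤ bigW c A b.2 := four_bigW ha h
    have h4 : 2 * f.2 ≤ g.2 := by omega
    have h5 : 2 * (f.2 : ℝ) ≤ (g.2 : ℝ) := by exact_mod_cast h4
    have h6 : (0 : ℝ) ≤ (f.2 : ℝ) := Nat.cast_nonneg _
    nlinarith
  · rw [← h] at hgb
    have h3 : f.2 = bigW c A a.2 := by omega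
    have h4 : g.2 + a.2 = 2 * bigW c A a.2 := by omega
    have h5 : (g.2 : ℝ) + (a.2 : ℝ) = 2 * (bigW c A a.2 : ℝ) := by exact_mod_cast h4
    have h6 : c * a.2 ≤ bigW c A a.2 := by
      have h7 := le_bigW c A a.2
      have h8 := le_wts a ha
      have h9 : c * a.2 ≤ c * (wts A + 1) := Nat.mul_le_mul_left _ (by omega)
      omega
    have h7 : (c : ℝ) * (a.2 : ℝ) ≤ (bigW c A a.2 : ℝ) := by exact_mod_cast h6
    have h8 : (0 : ℝ) ≤ (a.2 : ℝ) := Nat.cast_nonneg _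
    have h9 : (2 - r) * ((c : ℝ) * (a.2 : ℝ)) ≤ (2 - r) * (bigW c A a.2 : ℝ) :=
      mul_le_mul_of_nonneg_left h7 (by linarith)
    have h10 : 1 * (a.2 : ℝ) ≤ (c : ℝ) * (2 - r) * (a.2 : ℝ) :=
      mul_le_mul_of_nonneg_right hcr h8
    rw [h3]
    linarith
  · have h3 : 4 * bigW c A b.2 ≤ bigW c A a.2 := four_bigW hb h
    omega

theorem bipartite_seps {c : ℕ} {A : List ((ℕ × ℕ) × ℕ)} (hA : Bipartite A) :
    Bipartite (seps c A) := by
  classical
  obtain ⟨k, hk⟩ := hA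
  set k' : ℕ → Bool := fun z => decide (∃ (a : (ℕ × ℕ) × ℕ) (i : ℕ), z = sN a i ∧
    ((i = 1 ∧ k a.1.1 = false) ∨ (i ≠ 1 ∧ k a.1.1 = true))) with hk'
  have h1 : ∀ (a : (ℕ × ℕ) × ℕ), k' (sN a 1) = !(k a.1.1) := by
    intro a
    rw [hk', Bool.eq_iff_iff, decide_eq_true_iff]
    constructor
    · rintro ⟨a', i, h, h2⟩
      obtain ⟨rfl, rfl⟩ := sN_inj.1 h
      rcases h2 with ⟨_, h3⟩ | ⟨h3, _⟩
      · rw [h3]; rfl
      · exact absurd rfl h3
    · intro h
      refine ⟨a, 1, rfl, Or.inl ⟨rfl, ?_⟩⟩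
      simpa using h
  have h2 : ∀ (a : (ℕ × ℕ) × ℕ) (i : ℕ), i ≠ 1 → k' (sN a i) = k a.1.1 := by
    intro a i hi
    rw [hk', Bool.eq_iff_iff, decide_eq_true_iff]
    constructor
    · rintro ⟨a', i', h, h2⟩
      obtain ⟨rfl, rfl⟩ := sN_inj.1 h
      rcases h2 with ⟨h3, _⟩ | ⟨_, h3⟩
      · exact absurd h3 hi
      · exact h3
    · intro h
      exact ⟨a, i, rfl, Or.inr ⟨hi, h⟩⟩
  have h3 : ∀ v, k' (sV v) = k v := fun v => h2 ((v, v), 0) 0 (by decide)
  refine ⟨k', fun f hf => ?_⟩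
  rcases mem_seps.1 hf with ⟨a, ha, rfl⟩ | ⟨a, ha, rfl⟩ | ⟨a, ha, rfl⟩
  · show k' (sV a.1.1) ≠ k' (sN a 1)
    rw [h3, h1]
    cases k a.1.1 <;> simp
  · show k' (sN a 1) ≠ k' (sN a 2)
    rw [h1, h2 a 2 (by decide)]
    cases k a.1.1 <;> simp
  · show k' (sN a 2) ≠ k' (sV a.1.2)
    rw [h2 a 2 (by decide), h3]
    exact hk a ha

/-- the chain gadget does not change the set of the weights -/
theorem chain_wt {A : List ((ℕ × ℕ) × ℕ)} {f : (ℕ × ℕ) × ℕ} (hf : f ∈ chain A) :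
    ∃ e ∈ A, f.2 = e.2 := by
  have key : ∀ t, t < A.length → ∃ e ∈ A, wts A = e.2 := by
    intro t ht
    rcases lmax_mem (A.map fun e => e.2) with h | h
    · have h1 : A[t] ∈ A := List.getElem_mem ht
      have h2 := le_wts _ h1
      refine ⟨A[t], h1, ?_⟩
      have h3 : wts A = 0 := h
      omega
    · obtain ⟨e, he, h2⟩ := List.mem_map.mp h
      exact ⟨e, he, h2.symm⟩
  rcases mem_chain.mp hf with h3 | h3 | h3
  · obtain ⟨t, e, he, rfl⟩ := mem_ch1.mp h3
    exact ⟨e, List.mem_of_getElem? he, rfl⟩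
  · obtain ⟨v, t, _, ht, rfl⟩ := mem_ch2.mp h3
    exact key t ht
  · obtain ⟨v, t, _, ht, rfl⟩ := mem_ch3.mp h3
    exact key t ht

theorem sepR_chain {r : ℝ} {A : List ((ℕ × ℕ) × ℕ)} (hA : SepR r A) : SepR r (chain A) := by
  intro f hf g hg h
  obtain ⟨a, ha, h1⟩ := chain_wt hf
  obtain ⟨b, hb, h2⟩ := chain_wt hg
  rw [h1, h2] at h ⊢
  exact hA a ha b hb h

@[fun_prop]
theorem pt_lows {A : α → List ((ℕ × ℕ) × ℕ)} {w : α → ℕ} (hA : IsPolyTime A)
    (hw : IsPolyTime w) : IsPolyTime (fun a => lows (A a) (w a)) := by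
  unfold lows
  fun_prop

@[fun_prop]
theorem pt_bigW {c : ℕ} {A : α → List ((ℕ × ℕ) × ℕ)} {w : α → ℕ} (hA : IsPolyTime A)
    (hw : IsPolyTime w) : IsPolyTime (fun a => bigW c (A a) (w a)) := by
  have h1 : IsPolyTime (fun a => wts (A a) + 1) := by fun_prop
  have h2 : IsPolyTime (fun a => 2 * (c * (wts (A a) + 1))) :=
    pt_mul (pt_const 2) (pt_mul (pt_const c) h1)
  unfold bigW
  exact pt_dbl (pt_lows hA hw) (pt_dbl (pt_lows hA hw) h2)

@[fun_prop]
theorem pt_sN {f : α → (ℕ × ℕ) × ℕ} {i : α → ℕ} (hf : IsPolyTime f) (hi : IsPolyTime i) :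
    IsPolyTime (fun a => sN (f a) (i a)) := by
  unfold sN
  fun_prop

@[fun_prop]
theorem pt_sV {v : α → ℕ} (hv : IsPolyTime v) : IsPolyTime (fun a => sV (v a)) := by
  unfold sV
  fun_prop

@[fun_prop]
theorem pt_seps {c : ℕ} {A : α → List ((ℕ × ℕ) × ℕ)} (hA : IsPolyTime A) :
    IsPolyTime (fun a => seps c (A a)) := by
  unfold seps
  fun_prop

/-- **Hardness.**  For every `r < 2`: if covers of simple bipartite digraphs with in-degrees at most
two and with weights which are separated by the factor `r` can be computed in polynomial time, then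
mean payoff games are in `P`. -/
theorem sep_hard {r : ℝ} (hr : r < 2)
    (h : CoversInP fun A => (A.map Prod.fst).Nodup ∧ Bipartite A ∧ InDegLeTwo A ∧ SepR r A) :
    GamesInP := by
  obtain ⟨f, hf, hcov⟩ := h
  obtain ⟨c, hcr⟩ := exists_nat_ge (1 / (2 - r))
  have hr' : 0 < 2 - r := by linarith
  have hcr' : 1 ≤ (c : ℝ) * (2 - r) := by
    rw [div_le_iff₀ hr'] at hcr
    exact hcr
  have hc : 1 ≤ c := by
    rcases Nat.eq_zero_or_pos c with h0 | h0
    · rw [h0] at hcr'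
      norm_num at hcr'
    · exact h0
  refine ⟨fun p => decide (shM p.1 ≤ vec (f (chain (seps c (gd p.1))))
    (chP (sV (2 * p.2)) (seps c (gd p.1)).length)), ?_, fun G v hG hv => ?_⟩
  · have h1 : IsPolyTime (fun p : (List Arc × List ℕ) × ℕ => chain (seps c (gd p.1))) :=
      pt_chain (by fun_prop)
    have h2 : IsPolyTime (fun p : (List Arc × List ℕ) × ℕ => f (chain (seps c (gd p.1)))) :=
      pt_comp hf h1
    have h3 : IsPolyTime (fun p : (List Arc × List ℕ) × ℕ =>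
        chP (sV (2 * p.2)) (seps c (gd p.1)).length) :=
      pt_chP (by fun_prop) (by fun_prop)
    exact pt_le (by fun_prop) (pt_vec h2 h3)
  · have hA := isWDigraph_gd hG
    have he := even_seps (c := c) hA.even
    have h1 : IsCover (chain (seps c (gd G))) (vec (f (chain (seps c (gd G))))) := by
      refine hcov _ ?_ ⟨nodup_keys _, bipartite_chain (bipartite_seps (bipartite_gd G)),
        inDeg_chain _, sepR_chain (sepR_seps hr hc hcr' _)⟩
      intro g hg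
      obtain ⟨e, he', h2⟩ := chain_wt hg
      rw [h2]
      exact he e he'
    rw [decide_eq_true_iff]
    exact gd_correct hG (seps_correct hc (chain_correct h1)) hv

end Pool.Agent.Lib.MP_c29043_lc
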