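import Pool.Agent.Lib.MP_c29043_lc.SW.DefRR
import Pool.Agent.Lib.MP_c29043_lc.SW.Hard2

/-!
# Two weights per scale: as hard as mean payoff games

The gadget of `SW/Hard2.lean` with outer weights `W w` which grow by any given factor.
-/

set_option autoImplicit false

open N68a2faeb N487b59b3 Pool.Agent.Lib.PolyTime

namespace Pool.Agent.Lib.MP_c29043_lc

variable {α : Type} [N487b59b3 α]

/-- the new digraph, for the outer weights `W` -/
def sepsW (W : ℕ → ℕ) (A : List ((ℕ × ℕ) × ℕ)) : List ((ℕ × ℕ) × ℕ) :=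
  (A.map fun a => ((sV a.1.1, sN a 1), W a.2)) ++
    ((A.map fun a => ((sN a 1, sN a 2), 2 * W a.2 - a.2)) ++
      (A.map fun a => ((sN a 2, sV a.1.2), W a.2)))

theorem mem_sepsW {W : ℕ → ℕ} {A : List ((ℕ × ℕ) × ℕ)} {f : (ℕ × ℕ) × ℕ} : f ∈ sepsW W A ↔
    (∃ a ∈ A, ((sV a.1.1, sN a 1), W a.2) = f) ∨
    (∃ a ∈ A, ((sN a 1, sN a 2), 2 * W a.2 - a.2) = f) ∨
    (∃ a ∈ A, ((sN a 2, sV a.1.2), W a.2) = f) := by
  unfold sepsW
  simp only [List.mem_append, List.mem_map]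

/-- the facts about the path of an arc -/
theorem sepsW_path {W : ℕ → ℕ} {A : List ((ℕ × ℕ) × ℕ)} {y : ℕ → ℕ} (hy : IsCover (sepsW W A) y)
    {a : (ℕ × ℕ) × ℕ} (ha : a ∈ A) :
    W a.2 ≤ y (sV a.1.1) + y (sN a 1) ∧
    2 * W a.2 - a.2 ≤ y (sN a 1) + y (sN a 2) ∧
    W a.2 ≤ y (sN a 2) + y (sV a.1.2) ∧
    (0 < y (sN a 1) → y (sV a.1.1) + y (sN a 1) = W a.2) ∧
    (0 < y (sN a 2) → y (sN a 1) + y (sN a 2) = 2 * W a.2 - a.2) := by
  refine ⟨?_, ?_, ?_, ?_, ?_⟩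
  · exact hy.cover ((sV a.1.1, sN a 1), W a.2) (mem_sepsW.2 (Or.inl ⟨a, ha, rfl⟩))
  · exact hy.cover ((sN a 1, sN a 2), 2 * W a.2 - a.2)
      (mem_sepsW.2 (Or.inr (Or.inl ⟨a, ha, rfl⟩)))
  · exact hy.cover ((sN a 2, sV a.1.2), W a.2)
      (mem_sepsW.2 (Or.inr (Or.inr ⟨a, ha, rfl⟩)))
  · intro h0
    obtain ⟨f, hf, hfz, h1⟩ := hy.tight _ h0
    rcases mem_sepsW.1 hf with ⟨b, hb, rfl⟩ | ⟨b, hb, rfl⟩ | ⟨b, hb, rfl⟩
    · obtain rfl : b = a := (sN_inj.1 hfz).1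
      exact h1
    · have := (sN_inj.1 hfz).2
      omega
    · have := (sN_inj.1 hfz).2
      omega
  · intro h0
    obtain ⟨f, hf, hfz, h1⟩ := hy.tight _ h0
    rcases mem_sepsW.1 hf with ⟨b, hb, rfl⟩ | ⟨b, hb, rfl⟩ | ⟨b, hb, rfl⟩
    · have := (sN_inj.1 hfz).2
      omega
    · obtain rfl : b = a := (sN_inj.1 hfz).1
      exact h1
    · have := (sN_inj.1 hfz).2
      omega

/-- Correctness of the gadget. -/
theorem sepsW_correct {W : ℕ → ℕ} {A : List ((ℕ × ℕ) × ℕ)} (hW : ∀ a ∈ A, a.2 < W a.2)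
    {y : ℕ → ℕ} (hy : IsCover (sepsW W A) y) : IsCover A fun v => y (sV v) := by
  refine ⟨fun a ha => ?_, fun v hv => ?_⟩
  · obtain ⟨h1, h2, h3, h4, h5⟩ := sepsW_path hy ha
    have h6 := hW a ha
    show a.2 ≤ y (sV a.1.1) + y (sV a.1.2)
    rcases Nat.eq_zero_or_pos (y (sN a 2)) with h7 | h7
    · omega
    · have h8 := h5 h7
      rcases Nat.eq_zero_or_pos (y (sN a 1)) with h9 | h9
      · omega
      · have h10 := h4 h9
        omega
  · obtain ⟨f, hf, hfz, ht⟩ := hy.tight _ hv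
    rcases mem_sepsW.1 hf with ⟨a, ha, rfl⟩ | ⟨a, ha, rfl⟩ | ⟨a, ha, rfl⟩
    · have := (sN_inj.1 hfz).2
      omega
    · have := (sN_inj.1 hfz).2
      omega
    · have h0 : a.1.2 = v := sV_inj.1 hfz
      obtain ⟨h1, h2, h3, h4, h5⟩ := sepsW_path hy ha
      have h6 := hW a ha
      refine ⟨a, ha, h0, ?_⟩
      have hv' : 0 < y (sV v) := hv
      have ht' : y (sN a 2) + y (sV v) = W a.2 := ht
      show y (sV a.1.1) + y (sV v) = a.2
      rcases Nat.eq_zero_or_pos (y (sN a 2)) with h7 | h7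
      · rcases Nat.eq_zero_or_pos (y (sN a 1)) with h9 | h9
        · omega
        · have h10 := h4 h9
          omega
      · have h8 := h5 h7
        rcases Nat.eq_zero_or_pos (y (sN a 1)) with h9 | h9
        · omega
        · have h10 := h4 h9
          omega

theorem even_sepsW {W : ℕ → ℕ} {A : List ((ℕ × ℕ) × ℕ)} (hW : ∀ w, Even (W w))
    (hA : ∀ a ∈ A, Even a.2) : ∀ f ∈ sepsW W A, Even f.2 := by
  intro f hf
  rcases mem_sepsW.1 hf with ⟨a, ha, rfl⟩ | ⟨a, ha, rfl⟩ | ⟨a, ha, rfl⟩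
  · exact hW a.2
  · exact (even_two_mul _).tsub (hA a ha)
  · exact hW a.2

theorem wt_sepsW {W : ℕ → ℕ} {A : List ((ℕ × ℕ) × ℕ)} (hW : ∀ a ∈ A, a.2 < W a.2)
    {f : (ℕ × ℕ) × ℕ} (hf : f ∈ sepsW W A) :
    ∃ a ∈ A, f.2 = W a.2 ∨ f.2 + a.2 = 2 * W a.2 := by
  rcases mem_sepsW.1 hf with ⟨a, ha, rfl⟩ | ⟨a, ha, rfl⟩ | ⟨a, ha, rfl⟩
  · exact ⟨a, ha, Or.inl rfl⟩
  · refine ⟨a, ha, Or.inr ?_⟩
    have h6 := hW a ha
    show 2 * W a.2 - a.2 + a.2 = 2 * W a.2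
    omega
  · exact ⟨a, ha, Or.inl rfl⟩

/-- The weights of the new digraph. -/
theorem sepRR_sepsW {r R : ℝ} (hr : r < 2) {m : ℕ} (hm : R ≤ m) {W : ℕ → ℕ}
    {A : List ((ℕ × ℕ) × ℕ)} (hW : ∀ a ∈ A, a.2 < W a.2)
    (hc : ∀ a ∈ A, (a.2 : ℝ) ≤ (2 - r) * (W a.2 : ℝ))
    (h4 : ∀ a ∈ A, ∀ b ∈ A, a.2 < b.2 → 4 * W a.2 ≤ W b.2)
    (hmW : ∀ a ∈ A, ∀ b ∈ A, a.2 < b.2 → m * (2 * W a.2) ≤ W b.2) :
    SepRR r R (sepsW W A) := by
  refine ⟨?_, ?_⟩
  · intro f hf g hg hfg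
    obtain ⟨a, ha, hfa⟩ := wt_sepsW hW hf
    obtain ⟨b, hb, hgb⟩ := wt_sepsW hW hg
    have h1 := hW a ha
    have h2 := hW b hb
    rcases lt_trichotomy a.2 b.2 with h | h | h
    · have h3 := h4 a ha b hb h
      have h5 : 2 * f.2 ≤ g.2 := by omega
      have h6 : 2 * (f.2 : ℝ) ≤ (g.2 : ℝ) := by exact_mod_cast h5
      have h7 : (0 : ℝ) ≤ (f.2 : ℝ) := Nat.cast_nonneg _
      nlinarith
    · rw [← h] at hgb
      have h3 : f.2 = W a.2 := by omega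
      have h5 : g.2 + a.2 = 2 * W a.2 := by omega
      have h6 : (g.2 : ℝ) + (a.2 : ℝ) = 2 * (W a.2 : ℝ) := by exact_mod_cast h5
      have h7 := hc a ha
      rw [h3]
      linarith
    · have h3 := h4 b hb a ha h
      omega
  · intro f hf g hg e he hfg hge
    obtain ⟨a, ha, hfa⟩ := wt_sepsW hW hf
    obtain ⟨b, hb, hgb⟩ := wt_sepsW hW hg
    obtain ⟨d, hd, hed⟩ := wt_sepsW hW he
    have h1 := hW a ha
    have h2 := hW b hb
    have h3 := hW d hd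
    rcases lt_trichotomy a.2 d.2 with h | h | h
    · have h5 := hmW a ha d hd h
      have h6 : f.2 ≤ 2 * W a.2 := by omega
      have h7 : W d.2 ≤ e.2 := by omega
      have h8 : m * f.2 ≤ e.2 := (Nat.mul_le_mul_left m h6).trans (h5.trans h7)
      have h9 : (m : ℝ) * (f.2 : ℝ) ≤ (e.2 : ℝ) := by exact_mod_cast h8
      have h10 : (0 : ℝ) ≤ (f.2 : ℝ) := Nat.cast_nonneg _
      have h11 : R * (f.2 : ℝ) ≤ (m : ℝ) * (f.2 : ℝ) := mul_le_mul_of_nonneg_right hm h10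
      linarith
    · exfalso
      rw [← h] at hed h3
      rcases lt_trichotomy a.2 b.2 with h5 | h5 | h5
      · have h6 := h4 a ha b hb h5
        omega
      · rw [← h5] at hgb
        omega
      · have h6 := h4 b hb a ha h5
        omega
    · exfalso
      have h5 := h4 d hd a ha h
      omega

theorem bipartite_sepsW {W : ℕ → ℕ} {A : List ((ℕ × ℕ) × ℕ)} (hA : Bipartite A) :
    Bipartite (sepsW W A) := by
  classical
  obtain ⟨k, hk⟩ := hA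
  set k' : ℕ → Bool := fun z => decide (∃ (a : (ℕ × ℕ) × ℕ) (i : ℕ), z = sN a i ∧
    ((i = 1 ∧ k a.1.1 = false) ∨ (i ≠ 1 ∧ k a.1.1 = true))) with hk'
  have h1 : ∀ (a : (ℕ × ℕ) × ℕ), k' (sN a 1) = !(k a.1.1) := by
    intro a
    rw [hk', Bool.eq_iff_iff, decide_eq_true_iff]
    constructor
    · rintro ⟨a', i, h, h2⟩
      obtain ⟨rfl, rfl⟩ := sN_inj.1 h
      rcases h2 with ⟨_, h3⟩ | ⟨h3, _⟩
      · rw [h3]; rfl
      · exact absurd rfl h3
    · intro h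
      refine ⟨a, 1, rfl, Or.inl ⟨rfl, ?_⟩⟩
      simpa using h
  have h2 : ∀ (a : (ℕ × ℕ) × ℕ) (i : ℕ), i ≠ 1 → k' (sN a i) = k a.1.1 := by
    intro a i hi
    rw [hk', Bool.eq_iff_iff, decide_eq_true_iff]
    constructor
    · rintro ⟨a', i', h, h2⟩
      obtain ⟨rfl, rfl⟩ := sN_inj.1 h
      rcases h2 with ⟨h3, _⟩ | ⟨_, h3⟩
      · exact absurd h3 hi
      · exact h3
    · intro h
      exact ⟨a, i, rfl, Or.inr ⟨hi, h⟩⟩
  have h3 : ∀ v, k' (sV v) = k v := fun v => h2 ((v, v), 0) 0 (by decide)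
  refine ⟨k', fun f hf => ?_⟩
  rcases mem_sepsW.1 hf with ⟨a, ha, rfl⟩ | ⟨a, ha, rfl⟩ | ⟨a, ha, rfl⟩
  · show k' (sV a.1.1) ≠ k' (sN a 1)
    rw [h3, h1]
    cases k a.1.1 <;> simp
  · show k' (sN a 1) ≠ k' (sN a 2)
    rw [h1, h2 a 2 (by decide)]
    cases k a.1.1 <;> simp
  · show k' (sN a 2) ≠ k' (sV a.1.2)
    rw [h2 a 2 (by decide), h3]
    exact hk a ha

theorem sepRR_chain {r R : ℝ} {A : List ((ℕ × ℕ) × ℕ)} (hA : SepRR r R A) :
    SepRR r R (chain A) := by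
  refine ⟨?_, ?_⟩
  · intro f hf g hg h
    obtain ⟨a, ha, h1⟩ := chain_wt hf
    obtain ⟨b, hb, h2⟩ := chain_wt hg
    rw [h1, h2] at h ⊢
    exact hA.1 a ha b hb h
  · intro f hf g hg e he h h'
    obtain ⟨a, ha, h1⟩ := chain_wt hf
    obtain ⟨b, hb, h2⟩ := chain_wt hg
    obtain ⟨d, hd, h3⟩ := chain_wt he
    rw [h1, h2] at h
    rw [h2, h3] at h'
    rw [h1, h3]
    exact hA.2 a ha b hb d hd h h'

/-! ### The outer weights -/

/-- the outer weights, growing by the factor `2 ^ q` -/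
def bigQ (c : ℕ) (A : List ((ℕ × ℕ) × ℕ)) (w : ℕ) : ℕ → ℕ
  | 0 => 2 * (c * (wts A + 1))
  | q + 1 => dbl (lows A w) (bigQ c A w q)

theorem bigQ_eq (c : ℕ) (A : List ((ℕ × ℕ) × ℕ)) (w q : ℕ) :
    bigQ c A w q = 2 ^ (q * (lows A w).length) * (2 * (c * (wts A + 1))) := by
  induction q with
  | zero => simp [bigQ]
  | succ q ih =>
    show dbl (lows A w) (bigQ c A w q) = _
    rw [dbl_eq, ih, ← mul_assoc, ← pow_add]
    congr 2
    ring

theorem le_bigQ (c : ℕ) (A : List ((ℕ × ℕ) × ℕ)) (w q : ℕ) :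
    2 * (c * (wts A + 1)) ≤ bigQ c A w q := by
  rw [bigQ_eq]
  exact Nat.le_mul_of_pos_left _ (by positivity)

theorem lt_bigQ {c : ℕ} (hc : 1 ≤ c) {A : List ((ℕ × ℕ) × ℕ)} {a : (ℕ × ℕ) × ℕ} (ha : a ∈ A)
    (q : ℕ) : a.2 < bigQ c A a.2 q := by
  have h1 := le_bigQ c A a.2 q
  have h2 := le_wts a ha
  have h3 : 1 * (wts A + 1) ≤ c * (wts A + 1) := Nat.mul_le_mul_right _ hc
  omega

theorem even_bigQ (c : ℕ) (A : List ((ℕ × ℕ) × ℕ)) (w q : ℕ) : Even (bigQ c A w q) := by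
  rw [bigQ_eq]
  exact (even_two_mul _).mul_left _

theorem two_pow_bigQ {c : ℕ} {A : List ((ℕ × ℕ) × ℕ)} {a : (ℕ × ℕ) × ℕ} (ha : a ∈ A) {w : ℕ}
    (h : a.2 < w) (q : ℕ) : 2 ^ q * bigQ c A a.2 q ≤ bigQ c A w q := by
  rw [bigQ_eq, bigQ_eq, ← mul_assoc, ← pow_add]
  refine Nat.mul_le_mul_right _ (Nat.pow_le_pow_right (by norm_num) ?_)
  have h1 := Nat.mul_le_mul_left q (lows_lt ha h)
  have h2 : q * ((lows A a.2).length + 1) = q + q * (lows A a.2).length := by ring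
  omega

/-- the new digraph -/
def seps3 (c q : ℕ) (A : List ((ℕ × ℕ) × ℕ)) : List ((ℕ × ℕ) × ℕ) :=
  sepsW (fun w => bigQ c A w q) A

@[fun_prop]
theorem pt_bigQ {c : ℕ} {A : α → List ((ℕ × ℕ) × ℕ)} {w : α → ℕ} (hA : IsPolyTime A)
    (hw : IsPolyTime w) (q : ℕ) : IsPolyTime (fun a => bigQ c (A a) (w a) q) := by
  induction q with
  | zero =>
    have h1 : IsPolyTime (fun a => wts (A a) + 1) := by fun_prop
    exact pt_mul (pt_const 2) (pt_mul (pt_const c) h1)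
  | succ q ih => exact pt_dbl (pt_lows hA hw) ih

@[fun_prop]
theorem pt_seps3 {c q : ℕ} {A : α → List ((ℕ × ℕ) × ℕ)} (hA : IsPolyTime A) :
    IsPolyTime (fun a => seps3 c q (A a)) := by
  unfold seps3 sepsW
  fun_prop

/-- **Hardness.**  For all `r < 2` and all `R`: if covers of simple bipartite digraphs with
in-degrees at most two and weights as in `SepRR r R` can be computed in polynomial time, then mean
payoff games are in `P`. -/
theorem sep_hard3 {r R : ℝ} (hr : r < 2)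
    (h : CoversInP fun A => (A.map Prod.fst).Nodup ∧ Bipartite A ∧ InDegLeTwo A ∧ SepRR r R A) :
    GamesInP := by
  obtain ⟨f, hf, hcov⟩ := h
  obtain ⟨c, hcr⟩ := exists_nat_ge (1 / (2 - r))
  obtain ⟨m, hm⟩ := exists_nat_ge R
  have hr' : 0 < 2 - r := by linarith
  have hcr' : 1 ≤ (c : ℝ) * (2 - r) := by
    rw [div_le_iff₀ hr'] at hcr
    exact hcr
  have hc : 1 ≤ c := by
    rcases Nat.eq_zero_or_pos c with h0 | h0
    · rw [h0] at hcr'
      norm_num at hcr'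
    · exact h0
  set q : ℕ := m + 2 with hq
  have hq4 : 4 ≤ 2 ^ q := by
    have h1 : 2 ^ 2 ≤ 2 ^ q := Nat.pow_le_pow_right (by norm_num) (by omega)
    exact h1
  have hqm : m * 2 ≤ 2 ^ q := by
    have h1 : m < 2 ^ m := Nat.lt_two_pow_self
    have h2 : 2 ^ q = 2 ^ m * 4 := by rw [hq, pow_add]; norm_num
    omega
  have key : ∀ A : List ((ℕ × ℕ) × ℕ), SepRR r R (seps3 c q A) := by
    intro A
    refine sepRR_sepsW hr hm (fun a ha => lt_bigQ hc ha q) ?_ ?_ ?_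
    · intro a ha
      have h6 : c * a.2 ≤ bigQ c A a.2 q := by
        have h7 := le_bigQ c A a.2 q
        have h8 := le_wts a ha
        have h9 : c * a.2 ≤ c * (wts A + 1) := Nat.mul_le_mul_left _ (by omega)
        omega
      have h7 : (c : ℝ) * (a.2 : ℝ) ≤ (bigQ c A a.2 q : ℝ) := by exact_mod_cast h6
      have h8 : (0 : ℝ) ≤ (a.2 : ℝ) := Nat.cast_nonneg _
      have h9 : (2 - r) * ((c : ℝ) * (a.2 : ℝ)) ≤ (2 - r) * (bigQ c A a.2 q : ℝ) :=
        mul_le_mul_of_nonneg_left h7 hr'.le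
      have h10 : 1 * (a.2 : ℝ) ≤ (c : ℝ) * (2 - r) * (a.2 : ℝ) :=
        mul_le_mul_of_nonneg_right hcr' h8
      show (a.2 : ℝ) ≤ (2 - r) * (bigQ c A a.2 q : ℝ)
      linarith
    · intro a ha b hb hab
      exact (Nat.mul_le_mul_right _ hq4).trans (two_pow_bigQ ha hab q)
    · intro a ha b hb hab
      refine le_trans ?_ (two_pow_bigQ ha hab q)
      show m * (2 * bigQ c A a.2 q) ≤ 2 ^ q * bigQ c A a.2 q
      rw [← mul_assoc]
      exact Nat.mul_le_mul_right _ hqm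
  refine ⟨fun p => decide (shM p.1 ≤ vec (f (chain (seps3 c q (gd p.1))))
    (chP (sV (2 * p.2)) (seps3 c q (gd p.1)).length)), ?_, fun G v hG hv => ?_⟩
  · have h1 : IsPolyTime (fun p : (List Arc × List ℕ) × ℕ => chain (seps3 c q (gd p.1))) :=
      pt_chain (by fun_prop)
    have h2 : IsPolyTime (fun p : (List Arc × List ℕ) × ℕ => f (chain (seps3 c q (gd p.1)))) :=
      pt_comp hf h1
    have h3 : IsPolyTime (fun p : (List Arc × List ℕ) × ℕ =>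
        chP (sV (2 * p.2)) (seps3 c q (gd p.1)).length) :=
      pt_chP (by fun_prop) (by fun_prop)
    exact pt_le (by fun_prop) (pt_vec h2 h3)
  · have hA := isWDigraph_gd hG
    have he : ∀ g ∈ seps3 c q (gd G), Even g.2 :=
      even_sepsW (fun w => even_bigQ c (gd G) w q) hA.even
    have h1 : IsCover (chain (seps3 c q (gd G))) (vec (f (chain (seps3 c q (gd G))))) := by
      refine hcov _ ?_ ⟨nodup_keys _, bipartite_chain (bipartite_sepsW (bipartite_gd G)),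
        inDeg_chain _, sepRR_chain (key _)⟩
      intro g hg
      obtain ⟨e, he', h2⟩ := chain_wt hg
      rw [h2]
      exact he e he'
    have h2 : IsCover (gd G) fun v => vec (f (chain (seps3 c q (gd G))))
        (chP (sV v) (seps3 c q (gd G)).length) :=
      sepsW_correct (fun a ha => lt_bigQ hc ha q) (chain_correct h1)
    rw [decide_eq_true_iff]
    exact gd_correct hG h2 hv

end Pool.Agent.Lib.MP_c29043_lc
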