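import Pool.Agent.Lib.MP_c29043_lc.SW.Spec

/-!
# Separated weights, module Ini: the initial state (helper77)
-/

set_option autoImplicit false

open N68a2faeb N487b59b3 Pool.Agent.Lib.PolyTime

namespace Pool.Agent.Lib.MP_c29043_lc.SW

private theorem Ini_zero (A : List ((ℕ × ℕ) × ℕ)) (v : ℕ) :
    vec (tab (verts A) fun _ => 0) v = 0 := by
  by_cases hv : v ∈ verts A
  · exact vec_tab hv
  · exact vec_tab_zero hv

theorem tIni : S_Ini := by
  intro A
  refine ⟨⟨?_, fun v => ?_, fun v => ?_, fun v => ?_, fun e he => ?_⟩, fun v hv => ?_⟩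
  · change IsWt A (wts A)
    rcases lmax_mem (A.map fun e => e.2) with h | h
    · exact Or.inl h
    · obtain ⟨e, he, h1⟩ := List.mem_map.mp h
      exact Or.inr ⟨e, he, h1⟩
  · change vec (tab (verts A) fun _ => wts A) v = vec (tab (verts A) fun _ => 0) v ∨
      vec (tab (verts A) fun _ => wts A) v = vec (tab (verts A) fun _ => 0) v + wts A
    rw [Ini_zero]
    by_cases hv : v ∈ verts A
    · right
      rw [vec_tab hv, Nat.zero_add]
    · left
      exact vec_tab_zero hv
  · change T A (vec (tab (verts A) fun _ => 0)) v ≤ vec (tab (verts A) fun _ => wts A) v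
    by_cases hv : v ∈ verts A
    · rw [vec_tab hv]
      exact T_le_bound le_wts v
    · rw [T_zero_of_not_mem hv]
      exact Nat.zero_le _
  · change vec (tab (verts A) fun _ => 0) v ≤ _
    rw [Ini_zero]
    exact Nat.zero_le _
  · right
    refine ⟨e.2, Or.inr ⟨e, he, rfl⟩, le_wts e he, ?_⟩
    change e.2 = vec (tab (verts A) fun _ => 0) e.1.1 + vec (tab (verts A) fun _ => 0) e.1.2 + e.2
    rw [Ini_zero, Ini_zero]
    omega
  · exact ⟨Ini_zero A v, vec_tab_zero hv⟩

end Pool.Agent.Lib.MP_c29043_lc.SW
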