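import Pool.Agent.Lib.MP_c29043_lc.SW.Spec

/-!
# Covers of digraphs with separated weights: the kinds of vertices
-/

set_option autoImplicit false

open N68a2faeb N487b59b3 Pool.Agent.Lib.PolyTime

namespace Pool.Agent.Lib.MP_c29043_lc.SW

theorem tKin : S_Kin := by
  intro A lam m L0 H0 L H hI hm h2 hs v
  have hT : T A H v ≤ T A L v := T_anti hs.le v
  have hL := hs.fl v
  have hH := hs.fh v
  unfold lo at hL
  unfold hi at hH
  rcases hI.width v with h0 | h0
  · have e1 : L v = L0 v := by
      rw [hL, h0]
      split_ifs
      · exact max_eq_left (Nat.sub_le _ _)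
      · rfl
    have e2 : H v = L0 v := by
      rw [hH, h0]
      split_ifs
      · exact min_eq_left (Nat.le_add_right _ _)
      · rfl
    refine Kind.fix h0 e1 e2 ?_ ?_
    · unfold nl
      rw [if_pos ⟨e1, e2.trans h0.symm⟩]; omega
    · unfold nh
      rw [if_pos ⟨e1, e2.trans h0.symm⟩]; omega
  · by_cases c1 : H0 v - m ≤ T A H v
    · rw [if_pos c1] at hL
      have e1 : L v = L0 v + (lam - m) := by
        rw [hL, h0, max_eq_right (by omega)]; omega
      by_cases c2 : T A L v ≤ L0 v + m
      · rw [if_pos c2] at hH
        have e2 : H v = L0 v + m := by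
          rw [hH, h0, min_eq_right (by omega)]
        have e3 : ¬ (L v = L0 v ∧ H v = H0 v) := by
          rintro ⟨h3, h4⟩; omega
        refine Kind.both (by omega) h0 (by omega) e2 ?_ ?_ (by omega) (by omega)
        · unfold nl
          rw [if_neg e3]; omega
        · unfold nh
          rw [if_neg e3]; omega
      · rw [if_neg c2] at hH
        have e3 : ¬ (L v = L0 v ∧ H v = H0 v) := by
          rintro ⟨h3, h4⟩; omega
        refine Kind.high h0 e1 (by omega) ?_ ?_ (by omega) (by omega)
        · unfold nl
          rw [if_neg e3]; omega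
        · unfold nh
          rw [if_neg e3]; omega
    · rw [if_neg c1] at hL
      by_cases c2 : T A L v ≤ L0 v + m
      · rw [if_pos c2] at hH
        have e2 : H v = L0 v + m := by
          rw [hH, h0, min_eq_right (by omega)]
        have e3 : ¬ (L v = L0 v ∧ H v = H0 v) := by
          rintro ⟨h3, h4⟩; omega
        refine Kind.low h0 hL e2 ?_ ?_ (by omega) c2
        · unfold nl
          rw [if_neg e3]; omega
        · unfold nh
          rw [if_neg e3]; omega
      · rw [if_neg c2] at hH
        refine Kind.unres h0 hL (by omega) ?_ ?_ (by omega) (by omega)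
        · unfold nl
          rw [if_pos ⟨hL, hH⟩]; omega
        · unfold nh
          rw [if_pos ⟨hL, hH⟩]; omega

end Pool.Agent.Lib.MP_c29043_lc.SW
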