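import Pool.Agent.Lib.MP_c29043_lc.SW.Spec

/-!
# Covers of digraphs with separated weights: the rounds on lists
-/

set_option autoImplicit false

open N68a2faeb N487b59b3 Pool.Agent.Lib.PolyTime

namespace Pool.Agent.Lib.MP_c29043_lc.SW

private theorem Lst_lo {A : List ((ℕ × ℕ) × ℕ)} {L0 H0 : ℕ → ℕ} (m : ℕ) (t : ℕ → ℕ)
    (h : ∀ v, v ∉ verts A → L0 v = 0 ∧ H0 v = 0) :
    vec (tab (verts A) (lo L0 H0 m t)) = lo L0 H0 m t := by
  apply vec_tab_eq
  intro v hv
  obtain ⟨h1, h2⟩ := h v hv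
  simp [lo, h1, h2]

private theorem Lst_hi {A : List ((ℕ × ℕ) × ℕ)} {L0 H0 : ℕ → ℕ} (m : ℕ) (t : ℕ → ℕ)
    (h : ∀ v, v ∉ verts A → L0 v = 0 ∧ H0 v = 0) :
    vec (tab (verts A) (hi L0 H0 m t)) = hi L0 H0 m t := by
  apply vec_tab_eq
  intro v hv
  obtain ⟨h1, h2⟩ := h v hv
  simp [hi, h1, h2]

private theorem Lst_fold (A : List ((ℕ × ℕ) × ℕ)) (l0 h0 : List (ℕ × ℕ)) (m : ℕ)
    (h : ∀ v, v ∉ verts A → vec l0 v = 0 ∧ vec h0 v = 0) (X : List ℕ) :
    ∀ (k : ℕ) (p : List (ℕ × ℕ) × List (ℕ × ℕ)),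
      vec p.1 = (it A (vec l0) (vec h0) m k).1 → vec p.2 = (it A (vec l0) (vec h0) m k).2 →
      vec (X.foldl (fun p _ => rnd (verts A) A l0 h0 m p) p).1 =
          (it A (vec l0) (vec h0) m (k + X.length)).1 ∧
        vec (X.foldl (fun p _ => rnd (verts A) A l0 h0 m p) p).2 =
          (it A (vec l0) (vec h0) m (k + X.length)).2 := by
  induction X with
  | nil => intro k p h1 h2; exact ⟨h1, h2⟩
  | cons b X ih =>
    intro k p h1 h2
    rw [List.foldl_cons, List.length_cons]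
    have e : k + (X.length + 1) = (k + 1) + X.length := by omega
    rw [e]
    apply ih (k + 1)
    · rw [rnd, Lst_lo _ _ h, h2]
      rfl
    · rw [rnd, Lst_hi _ _ h, h1]
      rfl

theorem tLst : S_Lst := by
  intro A l0 h0 m h
  have key := Lst_fold A l0 h0 m h (verts A ++ verts A) 0 (l0, h0) rfl rfl
  have e : 0 + (verts A ++ verts A).length = 2 * (verts A).length := by
    rw [List.length_append]; omega
  rw [e] at key
  exact key

end Pool.Agent.Lib.MP_c29043_lc.SW
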