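import Pool.Agent.Lib.MP_c29043_lc.SW.Spec

/-!
# Covers of digraphs with separated weights: the image of the new box at an unresolved vertex
-/

set_option autoImplicit false

open N68a2faeb N487b59b3 Pool.Agent.Lib.PolyTime

namespace Pool.Agent.Lib.MP_c29043_lc.SW

/-- The lower corners only grow. -/
private theorem Mid_ge {A : List ((ℕ × ℕ) × ℕ)} {lam m : ℕ} {L0 H0 L H : ℕ → ℕ} {u : ℕ}
    (h : Kind A lam m L0 H0 L H u) : L0 u ≤ L u ∧ L0 u ≤ nl L0 H0 L H u := by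
  rcases h with ⟨_, h1, _, h3, _⟩ | ⟨_, h1, _, h3, _, _, _⟩ | ⟨_, h1, _, h3, _, _, _⟩ |
    ⟨_, h1, _, h3, _, _, _⟩ | ⟨_, _, h1, _, h3, _, _, _⟩
  all_goals exact ⟨by omega, by omega⟩

/-- The tails of the heavy arcs are high or unresolved. -/
private theorem Mid_tail {A : List ((ℕ × ℕ) × ℕ)} {lam m : ℕ} {L0 H0 L H : ℕ → ℕ}
    (hG : Gap A lam m) {v : ℕ} (ha : T A H v < L0 v + (lam - m)) {e : (ℕ × ℕ) × ℕ} (he : e ∈ A)
    (hev : e.1.2 = v) (hc : e.2 = L0 e.1.1 + L0 v + lam) (h : Kind A lam m L0 H0 L H e.1.1) :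
    (L e.1.1 = L0 e.1.1 + (lam - m) ∧ nl L0 H0 L H e.1.1 = L0 e.1.1 + (lam - m)) ∨
    (nl L0 H0 L H e.1.1 = L0 e.1.1 + lam / 2 ∧ nh L0 H0 L H e.1.1 = L0 e.1.1 + lam / 2) := by
  have h9 := le_T (x := H) he
  rw [hev] at h9
  have hlt := hG.lt
  rcases h with ⟨_, _, h2, _, _⟩ | ⟨_, _, _, h3, h4, _, _⟩ | ⟨_, h1, _, h3, _, _, _⟩ |
    ⟨_, _, h2, _, _, _, _⟩ | ⟨_, _, _, h2, _, _, _, _⟩
  · omega
  · exact Or.inr ⟨h3, h4⟩
  · exact Or.inl ⟨h1, h3⟩
  · omega
  · omega

theorem tMid : S_Mid := by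
  intro A lam m L0 H0 L H hI hG hK v _ ha hb
  have hlt := hG.lt
  have htwo := hG.two
  have heven := hG.even
  refine ⟨?_, ?_⟩
  · apply T_le
    intro e he hev
    have hge := (Mid_ge (hK e.1.1)).2
    rcases hI.dis e he with hd | ⟨c, hw, hcl, hd⟩
    · rw [hev] at hd
      omega
    · rw [hev] at hd
      rcases Nat.lt_or_ge c lam with hc | hc
      · have hcm := hG.max c hw hc
        omega
      · have hc' : c = lam := le_antisymm hcl hc
        subst hc'
        rcases Mid_tail hG ha he hev hd (hK e.1.1) with ⟨_, h2⟩ | ⟨h1, _⟩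
        · omega
        · omega
  · have hpos : 0 < T A L v := by omega
    obtain ⟨e, he, hev, h4⟩ := T_attained hpos
    have hge := (Mid_ge (hK e.1.1)).1
    rcases hI.dis e he with hd | ⟨c, hw, hcl, hd⟩
    · rw [hev] at hd
      omega
    · rw [hev] at hd
      rcases Nat.lt_or_ge c lam with hc | hc
      · have hcm := hG.max c hw hc
        omega
      · have hc' : c = lam := le_antisymm hcl hc
        subst hc'
        rcases Mid_tail hG ha he hev hd (hK e.1.1) with ⟨h1, _⟩ | ⟨_, h2⟩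
        · omega
        · have h9 := le_T (x := nh L0 H0 L H) he
          rw [hev] at h9
          omega

end Pool.Agent.Lib.MP_c29043_lc.SW
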