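import Pool.Agent.Lib.MP_c29043_lc.SW.Spec

/-!
# Covers of digraphs with separated weights: the next weight
-/

set_option autoImplicit false

open N68a2faeb N487b59b3 Pool.Agent.Lib.PolyTime

namespace Pool.Agent.Lib.MP_c29043_lc.SW

private theorem Nxt_mem (A : List ((ℕ × ℕ) × ℕ)) (lam : ℕ) :
    nxt A lam = 0 ∨ ∃ e ∈ A, e.2 < lam ∧ e.2 = nxt A lam := by
  rcases lmax_mem ((A.filter fun e => decide (e.2 < lam)).map fun e => e.2) with h | h
  · left
    exact h
  · right
    obtain ⟨e, he, h2⟩ := List.mem_map.mp h
    rw [List.mem_filter] at he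
    exact ⟨e, he.1, by simpa using he.2, h2⟩

private theorem Nxt_le {A : List ((ℕ × ℕ) × ℕ)} {lam : ℕ} {e : (ℕ × ℕ) × ℕ} (he : e ∈ A)
    (h : e.2 < lam) : e.2 ≤ nxt A lam :=
  le_lmax (List.mem_map.mpr ⟨e, List.mem_filter.mpr ⟨he, by simpa using h⟩, rfl⟩)

private theorem Nxt_cnt {α : Type} (p q : α → Bool) (l : List α)
    (h : ∀ a ∈ l, p a = true → q a = true) : (l.filter p).length ≤ (l.filter q).length := by
  induction l with
  | nil => simp
  | cons a l ih =>
    have ih' := ih fun b hb => h b (List.mem_cons_of_mem _ hb)
    have ha := h a List.mem_cons_self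
    by_cases hp : p a = true
    · rw [List.filter_cons_of_pos hp, List.filter_cons_of_pos (ha hp), List.length_cons,
        List.length_cons]
      omega
    · rw [List.filter_cons_of_neg hp]
      by_cases hq : q a = true
      · rw [List.filter_cons_of_pos hq, List.length_cons]
        omega
      · rw [List.filter_cons_of_neg hq]
        exact ih'

private theorem Nxt_lt {α : Type} (p q : α → Bool) (l : List α)
    (h : ∀ a ∈ l, p a = true → q a = true) (b : α) (hb : b ∈ l) (hp : ¬ p b = true)
    (hq : q b = true) : (l.filter p).length < (l.filter q).length := by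
  induction l with
  | nil => simp at hb
  | cons a l ih =>
    have h' : ∀ c ∈ l, p c = true → q c = true := fun c hc => h c (List.mem_cons_of_mem _ hc)
    have hcnt := Nxt_cnt p q l h'
    have ha := h a List.mem_cons_self
    rcases List.mem_cons.mp hb with rfl | hb'
    · rw [List.filter_cons_of_neg hp, List.filter_cons_of_pos hq, List.length_cons]
      omega
    · have ih' := ih h' hb'
      by_cases hpa : p a = true
      · rw [List.filter_cons_of_pos hpa, List.filter_cons_of_pos (ha hpa), List.length_cons,
          List.length_cons]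
        omega
      · rw [List.filter_cons_of_neg hpa]
        by_cases hqa : q a = true
        · rw [List.filter_cons_of_pos hqa, List.length_cons]
          omega
        · rw [List.filter_cons_of_neg hqa]
          exact ih'

theorem tNxt : S_Nxt := by
  intro A lam hev hsep hwt
  have hlt : 0 < lam → nxt A lam < lam := by
    intro h0
    rcases Nxt_mem A lam with h | ⟨e, _, h1, h2⟩
    · omega
    · omega
  refine ⟨fun h0 => ?_, fun h0 => ?_, fun h0 => ?_⟩
  · obtain ⟨b, hb, hbl⟩ : ∃ b ∈ A, b.2 = lam := by
      rcases hwt with h | h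
      · omega
      · exact h
    refine ⟨hlt h0, ?_, ?_, ?_, ?_⟩
    · rcases Nxt_mem A lam with h | ⟨e, he, h1, h2⟩
      · omega
      · have h3 := hsep e he b hb (by omega)
        omega
    · rcases Nxt_mem A lam with h | ⟨e, he, _, h2⟩
      · exact Or.inl h
      · exact Or.inr ⟨e, he, h2⟩
    · intro c hc hcl
      rcases hc with h | ⟨e, he, h⟩
      · omega
      · rw [← h]
        exact Nxt_le he (by omega)
    · have h3 := hev b hb
      rw [hbl] at h3
      exact Nat.even_iff.mp h3
  · rcases Nxt_mem A lam with h | ⟨e, _, h1, _⟩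
    · exact h
    · omega
  · obtain ⟨b, hb, hbl⟩ : ∃ b ∈ A, b.2 = lam := by
      rcases hwt with h | h
      · omega
      · exact h
    have h1 := hlt h0
    refine Nxt_lt _ _ A ?_ b hb ?_ ?_
    · intro a _ ha
      simp only [decide_eq_true_eq] at ha ⊢
      omega
    · simp only [decide_eq_true_eq]
      omega
    · simp only [decide_eq_true_eq]
      omega

end Pool.Agent.Lib.MP_c29043_lc.SW
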