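import Pool.Agent.Lib.MP_c29043_lc.SW.Spec

/-!
# The rounds of a stage are polynomial time
-/

set_option autoImplicit false

open N68a2faeb N487b59b3 Pool.Agent.Lib.PolyTime

namespace Pool.Agent.Lib.MP_c29043_lc.SW

/-- the lower corner stays below the sum of the corners -/
theorem PtA_lo_le (L0 H0 : ℕ → ℕ) (m : ℕ) (t : ℕ → ℕ) (v : ℕ) :
    lo L0 H0 m t v ≤ L0 v + H0 v := by
  unfold lo
  split_ifs
  · exact max_le (Nat.le_add_right _ _) ((Nat.sub_le _ _).trans (Nat.le_add_left _ _))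
  · exact Nat.le_add_right _ _

/-- the upper corner stays below the sum of the corners -/
theorem PtA_hi_le (L0 H0 : ℕ → ℕ) (m : ℕ) (t : ℕ → ℕ) (v : ℕ) :
    hi L0 H0 m t v ≤ L0 v + H0 v := by
  unfold hi
  split_ifs
  · exact (min_le_left _ _).trans (Nat.le_add_left _ _)
  · exact Nat.le_add_left _ _

/-- the size of the state during the rounds -/
theorem PtA_size (A : List ((ℕ × ℕ) × ℕ)) (l0 h0 : List (ℕ × ℕ)) (m : ℕ) (V L : List ℕ) :
    sz (L.foldl (fun p _ => rnd V A l0 h0 m p) (l0, h0)) ≤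
      sz (l0, h0) + (3 * sz (tab V (fun v => vec l0 v + vec h0 v)) + 1) := by
  rcases List.eq_nil_or_concat L with h | ⟨L', b, h⟩
  · rw [h]
    exact Nat.le_add_right _ _
  · rw [h, List.concat_eq_append, List.foldl_append, List.foldl_cons, List.foldl_nil]
    unfold rnd
    rw [sz_pair]
    have h1 := sz_tab_mono V (PtA_lo_le (vec l0) (vec h0) m
      (T A (vec (L'.foldl (fun p _ => rnd V A l0 h0 m p) (l0, h0)).2)))
    have h2 := sz_tab_mono V (PtA_hi_le (vec l0) (vec h0) m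
      (T A (vec (L'.foldl (fun p _ => rnd V A l0 h0 m p) (l0, h0)).1)))
    unfold rnd at h1 h2
    omega

theorem tPtA : S_PtA := by
  unfold S_PtA
  have hb : IsPolyTime
      fun p : List ((ℕ × ℕ) × ℕ) × ((List (ℕ × ℕ) × List (ℕ × ℕ)) × ℕ) =>
        tab (verts p.1) (fun v => vec p.2.1.1 v + vec p.2.1.2 v) := by
    fun_prop
  have hs : IsPolyTime
      fun p : List ((ℕ × ℕ) × ℕ) × ((List (ℕ × ℕ) × List (ℕ × ℕ)) × ℕ) =>
        (p.2.1.1, p.2.1.2) := by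
    fun_prop
  have hl : IsPolyTime
      fun p : List ((ℕ × ℕ) × ℕ) × ((List (ℕ × ℕ) × List (ℕ × ℕ)) × ℕ) =>
        verts p.1 ++ verts p.1 := by
    fun_prop
  have hg : IsPolyTime
      fun q : (List ((ℕ × ℕ) × ℕ) × ((List (ℕ × ℕ) × List (ℕ × ℕ)) × ℕ)) ×
          ((List (ℕ × ℕ) × List (ℕ × ℕ)) × ℕ) =>
        rnd (verts q.1.1) q.1.1 q.1.2.1.1 q.1.2.1.2 q.1.2.2 q.2.1 := by
    unfold rnd lo hi
    fun_prop
  obtain ⟨q1, hq1⟩ := exists_size hb
  obtain ⟨q2, hq2⟩ := exists_size hs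
  refine pt_foldl (g := fun (p : List ((ℕ × ℕ) × ℕ) × ((List (ℕ × ℕ) × List (ℕ × ℕ)) × ℕ))
    (s : List (ℕ × ℕ) × List (ℕ × ℕ)) (_ : ℕ) =>
      rnd (verts p.1) p.1 p.2.1.1 p.2.1.2 p.2.2 s) hg hl hs (q2 + (3 * q1 + 1)) ?_
  intro a k
  have h1 := PtA_size a.1 a.2.1.1 a.2.1.2 a.2.2 (verts a.1)
    ((verts a.1 ++ verts a.1).take k)
  have h2 := hq1 a
  have h3 := hq2 a
  simp only [Polynomial.eval_add, Polynomial.eval_mul, Polynomial.eval_ofNat,
    Polynomial.eval_one]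
  refine h1.trans ?_
  omega

end Pool.Agent.Lib.MP_c29043_lc.SW
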