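import Pool.Agent.Lib.MP_c29043_lc.SW.Spec

/-!
# MP_c29043_lc, project SW: the algorithm runs in polynomial time
-/

set_option autoImplicit false

open N68a2faeb N487b59b3 Pool.Agent.Lib.PolyTime

namespace Pool.Agent.Lib.MP_c29043_lc.SW

section pt

variable {α : Type} [N487b59b3 α]

private theorem PtB_half_eq (n : ℕ) : ofBits (bitsOf n).tail = n / 2 := by
  have h1 := ofBits_tail (bitsOf n)
  rw [ofBits_bitsOf] at h1
  cases h : (bitsOf n).headD false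
  · rw [h, cond_false] at h1
    omega
  · rw [h, cond_true] at h1
    omega

private theorem PtB_half {f : α → ℕ} (hf : IsPolyTime f) : IsPolyTime (fun a => f a / 2) :=
  pt_congr (pt_ofBits (pt_tail (pt_bitsOf hf))) (fun _ => PtB_half_eq _)

private theorem PtB_nxt {A : α → List ((ℕ × ℕ) × ℕ)} {lam : α → ℕ} (hA : IsPolyTime A)
    (hl : IsPolyTime lam) : IsPolyTime (fun a => nxt (A a) (lam a)) := by
  unfold nxt
  fun_prop

private theorem PtB_rnds (hA' : S_PtA) {A : α → List ((ℕ × ℕ) × ℕ)} {l h : α → List (ℕ × ℕ)}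
    {m : α → ℕ} (hA : IsPolyTime A) (hl : IsPolyTime l) (hh : IsPolyTime h) (hm : IsPolyTime m) :
    IsPolyTime (fun a => rnds (A a) (l a) (h a) (m a)) :=
  pt_comp (g := fun p : List ((ℕ × ℕ) × ℕ) × ((List (ℕ × ℕ) × List (ℕ × ℕ)) × ℕ) =>
      rnds p.1 p.2.1.1 p.2.1.2 p.2.2)
    (f := fun a => (A a, ((l a, h a), m a))) hA' (pt_pair hA (pt_pair (pt_pair hl hh) hm))

private theorem PtB_cond {L0 H0 L H : α → List (ℕ × ℕ)} {v : α → ℕ} (h1 : IsPolyTime L0)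
    (h2 : IsPolyTime H0) (h3 : IsPolyTime L) (h4 : IsPolyTime H) (hv : IsPolyTime v) :
    IsPolyTime (fun a => decide (vec (L a) (v a) = vec (L0 a) (v a) ∧
      vec (H a) (v a) = vec (H0 a) (v a))) :=
  pt_congr (pt_and (pt_eq (pt_vec h3 hv) (pt_vec h1 hv)) (pt_eq (pt_vec h4 hv) (pt_vec h2 hv)))
    (fun a => (Bool.decide_and _ _).symm)

private theorem PtB_nl {L0 H0 L H : α → List (ℕ × ℕ)} {v : α → ℕ} (h1 : IsPolyTime L0)
    (h2 : IsPolyTime H0) (h3 : IsPolyTime L) (h4 : IsPolyTime H) (hv : IsPolyTime v) :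
    IsPolyTime (fun a => nl (vec (L0 a)) (vec (H0 a)) (vec (L a)) (vec (H a)) (v a)) := by
  unfold nl
  exact pt_ite (PtB_cond h1 h2 h3 h4 hv) (PtB_half (pt_add (pt_vec h1 hv) (pt_vec h2 hv)))
    (pt_vec h3 hv)

private theorem PtB_nh {L0 H0 L H : α → List (ℕ × ℕ)} {v : α → ℕ} (h1 : IsPolyTime L0)
    (h2 : IsPolyTime H0) (h3 : IsPolyTime L) (h4 : IsPolyTime H) (hv : IsPolyTime v) :
    IsPolyTime (fun a => nh (vec (L0 a)) (vec (H0 a)) (vec (L a)) (vec (H a)) (v a)) := by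
  unfold nh
  exact pt_ite (PtB_cond h1 h2 h3 h4 hv) (PtB_half (pt_add (pt_vec h1 hv) (pt_vec h2 hv)))
    (pt_vec h4 hv)

private theorem PtB_stg (hA' : S_PtA) {A : α → List ((ℕ × ℕ) × ℕ)}
    {s : α → ℕ × (List (ℕ × ℕ) × List (ℕ × ℕ))} (hA : IsPolyTime A) (hs : IsPolyTime s) :
    IsPolyTime (fun a => stg (A a) (s a)) := by
  have hl : IsPolyTime (fun a => (s a).2.1) := pt_fst (pt_snd hs)
  have hh : IsPolyTime (fun a => (s a).2.2) := pt_snd (pt_snd hs)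
  have hn : IsPolyTime (fun a => nxt (A a) (s a).1) := PtB_nxt hA (pt_fst hs)
  have hr : IsPolyTime (fun a => rnds (A a) (s a).2.1 (s a).2.2 (nxt (A a) (s a).1)) :=
    PtB_rnds hA' hA hl hh hn
  have hl' : IsPolyTime (fun p : α × ℕ => (s p.1).2.1) := pt_comp (g := fun a => (s a).2.1) hl pt_fst'
  have hh' : IsPolyTime (fun p : α × ℕ => (s p.1).2.2) := pt_comp (g := fun a => (s a).2.2) hh pt_fst'
  have hr1 : IsPolyTime (fun p : α × ℕ =>
      (rnds (A p.1) (s p.1).2.1 (s p.1).2.2 (nxt (A p.1) (s p.1).1)).1) :=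
    pt_comp (g := fun a => (rnds (A a) (s a).2.1 (s a).2.2 (nxt (A a) (s a).1)).1) (pt_fst hr) pt_fst'
  have hr2 : IsPolyTime (fun p : α × ℕ =>
      (rnds (A p.1) (s p.1).2.1 (s p.1).2.2 (nxt (A p.1) (s p.1).1)).2) :=
    pt_comp (g := fun a => (rnds (A a) (s a).2.1 (s a).2.2 (nxt (A a) (s a).1)).2) (pt_snd hr) pt_fst'
  unfold stg
  exact pt_pair hn (pt_pair
    (pt_tab (pt_verts hA) (PtB_nl hl' hh' hr1 hr2 pt_snd'))
    (pt_tab (pt_verts hA) (PtB_nh hl' hh' hr1 hr2 pt_snd')))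

end pt

/-! ### Bounds -/

private theorem PtB_vec_tab_le {V : List ℕ} {f : ℕ → ℕ} {W : ℕ} (hf : ∀ v, f v ≤ W) (v : ℕ) :
    vec (tab V f) v ≤ W := by
  by_cases hv : v ∈ V
  · rw [vec_tab hv]
    exact hf v
  · rw [vec_tab_zero hv]
    exact Nat.zero_le _

private theorem PtB_lo_le {L0 H0 t : ℕ → ℕ} {m W : ℕ} (h1 : ∀ v, L0 v ≤ W) (h2 : ∀ v, H0 v ≤ W)
    (v : ℕ) : lo L0 H0 m t v ≤ W := by
  unfold lo
  have := h1 v
  have := h2 v
  split_ifs <;> omega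

private theorem PtB_hi_le {L0 H0 t : ℕ → ℕ} {m W : ℕ} (h2 : ∀ v, H0 v ≤ W)
    (v : ℕ) : hi L0 H0 m t v ≤ W := by
  unfold hi
  have := h2 v
  split_ifs <;> omega

private theorem PtB_rnds_le {A : List ((ℕ × ℕ) × ℕ)} {l0 h0 : List (ℕ × ℕ)} {m W : ℕ}
    (h1 : ∀ v, vec l0 v ≤ W) (h2 : ∀ v, vec h0 v ≤ W) :
    (∀ v, vec (rnds A l0 h0 m).1 v ≤ W) ∧ ∀ v, vec (rnds A l0 h0 m).2 v ≤ W := by
  have key : ∀ (l : List ℕ) (p : List (ℕ × ℕ) × List (ℕ × ℕ)),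
      (∀ v, vec p.1 v ≤ W) → (∀ v, vec p.2 v ≤ W) →
      (∀ v, vec (l.foldl (fun p _ => rnd (verts A) A l0 h0 m p) p).1 v ≤ W) ∧
        ∀ v, vec (l.foldl (fun p _ => rnd (verts A) A l0 h0 m p) p).2 v ≤ W := by
    intro l
    induction l with
    | nil => intro p hp1 hp2; exact ⟨hp1, hp2⟩
    | cons b l ih =>
      intro p hp1 hp2
      rw [List.foldl_cons]
      exact ih _ (fun v => PtB_vec_tab_le (PtB_lo_le h1 h2) v)
        (fun v => PtB_vec_tab_le (PtB_hi_le h2) v)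
  exact key _ _ h1 h2

private theorem PtB_nxt_le (A : List ((ℕ × ℕ) × ℕ)) (lam : ℕ) : nxt A lam ≤ wts A := by
  unfold nxt
  apply lmax_le
  intro c hc
  obtain ⟨e, he, rfl⟩ := List.mem_map.mp hc
  exact le_wts e (List.mem_filter.mp he).1

/-- the states of the fold -/
private structure PtB_Bnd (A : List ((ℕ × ℕ) × ℕ)) (s : ℕ × (List (ℕ × ℕ) × List (ℕ × ℕ))) :
    Prop where
  wt : s.1 ≤ wts A
  l : ∃ f : ℕ → ℕ, s.2.1 = tab (verts A) f ∧ ∀ v, f v ≤ wts A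
  h : ∃ f : ℕ → ℕ, s.2.2 = tab (verts A) f ∧ ∀ v, f v ≤ wts A

private theorem PtB_ini (A : List ((ℕ × ℕ) × ℕ)) : PtB_Bnd A (ini A) :=
  ⟨le_rfl, ⟨_, rfl, fun _ => Nat.zero_le _⟩, ⟨_, rfl, fun _ => le_rfl⟩⟩

private theorem PtB_step {A : List ((ℕ × ℕ) × ℕ)} {s : ℕ × (List (ℕ × ℕ) × List (ℕ × ℕ))}
    (hs : PtB_Bnd A s) : PtB_Bnd A (stg A s) := by
  have hl : ∀ v, vec s.2.1 v ≤ wts A := by
    obtain ⟨f, hf, hf'⟩ := hs.l
    intro v
    rw [hf]
    exact PtB_vec_tab_le hf' v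
  have hh : ∀ v, vec s.2.2 v ≤ wts A := by
    obtain ⟨f, hf, hf'⟩ := hs.h
    intro v
    rw [hf]
    exact PtB_vec_tab_le hf' v
  obtain ⟨hr1, hr2⟩ := PtB_rnds_le (A := A) (m := nxt A s.1) hl hh
  refine ⟨PtB_nxt_le A s.1, ⟨_, rfl, fun v => ?_⟩, ⟨_, rfl, fun v => ?_⟩⟩
  · have h1 := hl v
    have h2 := hh v
    have h3 := hr1 v
    unfold nl
    split_ifs
    · omega
    · exact h3
  · have h1 := hl v
    have h2 := hh v
    have h3 := hr2 v
    unfold nh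
    split_ifs
    · omega
    · exact h3

private theorem PtB_fold (A l : List ((ℕ × ℕ) × ℕ)) :
    ∀ s : ℕ × (List (ℕ × ℕ) × List (ℕ × ℕ)), PtB_Bnd A s →
      PtB_Bnd A (l.foldl (fun s _ => stg A s) s) := by
  induction l with
  | nil => intro s hs; exact hs
  | cons b l ih =>
    intro s hs
    rw [List.foldl_cons]
    exact ih _ (PtB_step hs)

private theorem PtB_sz {A : List ((ℕ × ℕ) × ℕ)} {s : ℕ × (List (ℕ × ℕ) × List (ℕ × ℕ))}
    (hs : PtB_Bnd A s) :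
    sz s ≤ sz (wts A, (tab (verts A) (fun _ => wts A), tab (verts A) (fun _ => wts A))) := by
  obtain ⟨a, l, h⟩ := s
  obtain ⟨f, hf, hf'⟩ := hs.l
  obtain ⟨g, hg, hg'⟩ := hs.h
  have h1 : sz a ≤ sz (wts A) := sz_mono hs.wt
  have h2 : sz l ≤ sz (tab (verts A) fun _ => wts A) := by
    rw [show l = tab (verts A) f from hf]
    exact sz_tab_mono _ hf'
  have h3 : sz h ≤ sz (tab (verts A) fun _ => wts A) := by
    rw [show h = tab (verts A) g from hg]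
    exact sz_tab_mono _ hg'
  rw [sz_pair, sz_pair, sz_pair, sz_pair]
  omega

/-- the algorithm runs in polynomial time -/
theorem tPtB (hA : S_PtA) : S_PtB := by
  unfold S_PtB
  have hid : IsPolyTime (fun A : List ((ℕ × ℕ) × ℕ) => A) := pt_id
  have hB : IsPolyTime (fun A : List ((ℕ × ℕ) × ℕ) =>
      (wts A, (tab (verts A) (fun _ => wts A), tab (verts A) (fun _ => wts A)))) := by
    fun_prop
  obtain ⟨q, hq⟩ := exists_size hB
  have hini : IsPolyTime (fun A : List ((ℕ × ℕ) × ℕ) => ini A) := by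
    unfold ini
    fun_prop
  have hfold : IsPolyTime (fun A : List ((ℕ × ℕ) × ℕ) =>
      A.foldl (fun s _ => stg A s) (ini A)) := by
    refine pt_foldl (α := List ((ℕ × ℕ) × ℕ))
      (g := fun A s (_ : (ℕ × ℕ) × ℕ) => stg A s) ?_ hid hini q ?_
    · exact PtB_stg hA pt_fst' (pt_fst pt_snd')
    · intro A k
      exact (PtB_sz (PtB_fold A _ _ (PtB_ini A))).trans (hq A)
  unfold alg
  exact pt_fst (pt_snd hfold)

end Pool.Agent.Lib.MP_c29043_lc.SW
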