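import Pool.Agent.Lib.MP_c29043_lc.SW.Spec

/-!
# SW/Stg: a stage leads from the invariant of the width `lam` to the invariant of the width `m`
-/

set_option autoImplicit false

open N68a2faeb N487b59b3 Pool.Agent.Lib.PolyTime

namespace Pool.Agent.Lib.MP_c29043_lc.SW

private theorem Stg_zero (A : List ((ℕ × ℕ) × ℕ)) (L0 H0 L H : ℕ → ℕ) (hI : Inv A 0 L0 H0)
    (hS : Stab A 0 L0 H0 L H) : Inv A 0 (nl L0 H0 L H) (nh L0 H0 L H) := by
  have hw : ∀ v, H0 v = L0 v := fun v => by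
    rcases hI.width v with h | h
    · exact h
    · rw [h, Nat.add_zero]
  have hL : ∀ v, L v = L0 v := fun v => by
    have h1 := hS.fl v
    unfold lo at h1
    have h2 := hw v
    split_ifs at h1 <;> omega
  have hH : ∀ v, H v = L0 v := fun v => by
    have h1 := hS.fh v
    unfold hi at h1
    have h2 := hw v
    split_ifs at h1 <;> omega
  have e1 : nl L0 H0 L H = L0 := by
    funext v
    have h2 := hw v
    have h3 := hL v
    have h4 := hH v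
    unfold nl
    split_ifs <;> omega
  have e2 : nh L0 H0 L H = H0 := by
    funext v
    have h2 := hw v
    have h3 := hL v
    have h4 := hH v
    unfold nh
    split_ifs <;> omega
  rw [e1, e2]
  exact hI

/-- Stg: the stage. -/
theorem tStg (hKin : S_Kin) (hMid : S_Mid) (hDis : S_Dis) : S_Stg := by
  intro A lam m L0 H0 L H hI hG hS
  rcases hG with hG | ⟨rfl, rfl⟩
  swap
  · exact Stg_zero A L0 H0 L H hI hS
  have K := hKin A lam m L0 H0 L H hI hG.lt hG.two hS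
  have hM := hMid A lam m L0 H0 L H hI hG K
  have hlt := hG.lt
  have htwo := hG.two
  have hL0L : ∀ v, L0 v ≤ L v := fun v => by
    rcases K v with ⟨h0, h1, h2, h3, h4⟩ | ⟨h0, h1, h2, h3, h4, h5, h6⟩ |
      ⟨h0, h1, h2, h3, h4, h5, h6⟩ | ⟨h0, h1, h2, h3, h4, h5, h6⟩ |
      ⟨h, h0, h1, h2, h3, h4, h5, h6⟩ <;> omega
  have hHH0 : ∀ v, H v ≤ H0 v := fun v => by
    rcases K v with ⟨h0, h1, h2, h3, h4⟩ | ⟨h0, h1, h2, h3, h4, h5, h6⟩ |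
      ⟨h0, h1, h2, h3, h4, h5, h6⟩ | ⟨h0, h1, h2, h3, h4, h5, h6⟩ |
      ⟨h, h0, h1, h2, h3, h4, h5, h6⟩ <;> omega
  have hLn : ∀ v, L v ≤ nl L0 H0 L H v := fun v => by
    rcases K v with ⟨h0, h1, h2, h3, h4⟩ | ⟨h0, h1, h2, h3, h4, h5, h6⟩ |
      ⟨h0, h1, h2, h3, h4, h5, h6⟩ | ⟨h0, h1, h2, h3, h4, h5, h6⟩ |
      ⟨h, h0, h1, h2, h3, h4, h5, h6⟩ <;> omega
  have hnH : ∀ v, nh L0 H0 L H v ≤ H v := fun v => by
    rcases K v with ⟨h0, h1, h2, h3, h4⟩ | ⟨h0, h1, h2, h3, h4, h5, h6⟩ |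
      ⟨h0, h1, h2, h3, h4, h5, h6⟩ | ⟨h0, h1, h2, h3, h4, h5, h6⟩ |
      ⟨h, h0, h1, h2, h3, h4, h5, h6⟩ <;> omega
  refine ⟨hG.wt, fun v => ?_, fun v => ?_, fun v => ?_, ?_⟩
  · rcases K v with ⟨h0, h1, h2, h3, h4⟩ | ⟨h0, h1, h2, h3, h4, h5, h6⟩ |
      ⟨h0, h1, h2, h3, h4, h5, h6⟩ | ⟨h0, h1, h2, h3, h4, h5, h6⟩ |
      ⟨h, h0, h1, h2, h3, h4, h5, h6⟩ <;> omega
  · have t1 : T A (nl L0 H0 L H) v ≤ T A L v := T_anti hLn v
    have t2 : T A L v ≤ T A L0 v := T_anti hL0L v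
    have t3 : T A L0 v ≤ H0 v := hI.up v
    rcases K v with ⟨h0, h1, h2, h3, h4⟩ | ⟨h0, h1, h2, h3, h4, h5, h6⟩ |
      ⟨h0, h1, h2, h3, h4, h5, h6⟩ | ⟨h0, h1, h2, h3, h4, h5, h6⟩ |
      ⟨h, h0, h1, h2, h3, h4, h5, h6⟩
    · omega
    · have := (hM v h0 h5 h6).1
      omega
    · omega
    · omega
    · omega
  · have t1 : T A H v ≤ T A (nh L0 H0 L H) v := T_anti hnH v
    have t2 : T A H0 v ≤ T A H v := T_anti hHH0 v
    have t3 : L0 v ≤ T A H0 v := hI.low v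
    rcases K v with ⟨h0, h1, h2, h3, h4⟩ | ⟨h0, h1, h2, h3, h4, h5, h6⟩ |
      ⟨h0, h1, h2, h3, h4, h5, h6⟩ | ⟨h0, h1, h2, h3, h4, h5, h6⟩ |
      ⟨h, h0, h1, h2, h3, h4, h5, h6⟩
    · omega
    · have := (hM v h0 h5 h6).2
      omega
    · omega
    · omega
    · omega
  · exact hDis A lam m L0 H0 L H hI hG K (fun v h0 h5 h6 => (hM v h0 h5 h6).1)

end Pool.Agent.Lib.MP_c29043_lc.SW
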