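import Pool.Agent.Lib.MP_c29043_lc.SW.Spec

/-!
# Covers of digraphs with separated weights: a stage preserves the invariant of the states
-/

set_option autoImplicit false

open N68a2faeb N487b59b3 Pool.Agent.Lib.PolyTime

namespace Pool.Agent.Lib.MP_c29043_lc.SW

theorem tStp (hMon : S_Mon) (hFix : S_Fix) (hStg : S_Stg) (hLst : S_Lst) (hNxt : S_Nxt) :
    S_Stp := by
  intro A s hE hS hst
  obtain ⟨hinv, hsupp⟩ := hst
  have hN := hNxt A s.1 hE hS hinv.wt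
  have hgap : Gap A s.1 (nxt A s.1) ∨ s.1 = 0 ∧ nxt A s.1 = 0 := by
    rcases Nat.eq_zero_or_pos s.1 with h | h
    · exact Or.inr ⟨h, hN.2.1 h⟩
    · exact Or.inl (hN.1 h)
  have hstab := hFix A (nxt A s.1) (vec s.2.1) (vec s.2.2) hsupp
    (hMon A s.1 (nxt A s.1) _ _ hinv)
  have hL := hLst A s.2.1 s.2.2 (nxt A s.1) hsupp
  rw [← hL.1, ← hL.2] at hstab
  have hz : ∀ v, v ∉ verts A → vec (rnds A s.2.1 s.2.2 (nxt A s.1)).1 v = 0 ∧
      vec (rnds A s.2.1 s.2.2 (nxt A s.1)).2 v = 0 := by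
    intro v hv
    obtain ⟨h1, h2⟩ := hsupp v hv
    have h3 : vec (rnds A s.2.1 s.2.2 (nxt A s.1)).2 v = 0 := by
      rw [hstab.fh v]
      unfold hi
      rw [h1, h2]
      split_ifs <;> simp
    have h4 := hstab.le v
    exact ⟨by omega, h3⟩
  have hn1 : vec (tab (verts A) (nl (vec s.2.1) (vec s.2.2)
      (vec (rnds A s.2.1 s.2.2 (nxt A s.1)).1) (vec (rnds A s.2.1 s.2.2 (nxt A s.1)).2))) =
      nl (vec s.2.1) (vec s.2.2) (vec (rnds A s.2.1 s.2.2 (nxt A s.1)).1)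
        (vec (rnds A s.2.1 s.2.2 (nxt A s.1)).2) := by
    apply vec_tab_eq
    intro v hv
    obtain ⟨h1, h2⟩ := hsupp v hv
    obtain ⟨h3, h4⟩ := hz v hv
    unfold nl
    rw [h1, h2, h3, h4]
    simp
  have hn2 : vec (tab (verts A) (nh (vec s.2.1) (vec s.2.2)
      (vec (rnds A s.2.1 s.2.2 (nxt A s.1)).1) (vec (rnds A s.2.1 s.2.2 (nxt A s.1)).2))) =
      nh (vec s.2.1) (vec s.2.2) (vec (rnds A s.2.1 s.2.2 (nxt A s.1)).1)
        (vec (rnds A s.2.1 s.2.2 (nxt A s.1)).2) := by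
    apply vec_tab_eq
    intro v hv
    obtain ⟨h1, h2⟩ := hsupp v hv
    obtain ⟨h3, h4⟩ := hz v hv
    unfold nh
    rw [h1, h2, h3, h4]
    simp
  refine ⟨?_, fun v hv => ⟨vec_tab_zero hv, vec_tab_zero hv⟩⟩
  have hfin := hStg A s.1 (nxt A s.1) _ _ _ _ hinv hgap hstab
  rw [← hn1, ← hn2] at hfin
  exact hfin

end Pool.Agent.Lib.MP_c29043_lc.SW
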