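import Pool.Agent.Lib.MP_c29043_lc.SW.Mon
import Pool.Agent.Lib.MP_c29043_lc.SW.Fix
import Pool.Agent.Lib.MP_c29043_lc.SW.Kin
import Pool.Agent.Lib.MP_c29043_lc.SW.Mid
import Pool.Agent.Lib.MP_c29043_lc.SW.Dis
import Pool.Agent.Lib.MP_c29043_lc.SW.Stg
import Pool.Agent.Lib.MP_c29043_lc.SW.Lst
import Pool.Agent.Lib.MP_c29043_lc.SW.Nxt
import Pool.Agent.Lib.MP_c29043_lc.SW.Ini
import Pool.Agent.Lib.MP_c29043_lc.SW.Stp
import Pool.Agent.Lib.MP_c29043_lc.SW.Cor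
import Pool.Agent.Lib.MP_c29043_lc.SW.PtA
import Pool.Agent.Lib.MP_c29043_lc.SW.PtB

/-!
# Covers of digraphs with separated weights: the algorithm
-/

set_option autoImplicit false

namespace Pool.Agent.Lib.MP_c29043_lc.SW

theorem tMain : S_Main := by
  have hStg : S_Stg := tStg tKin tMid tDis
  have hStp : S_Stp := tStp tMon tFix hStg tLst tNxt
  have hCor : S_Cor := tCor hStp tIni tNxt
  exact ⟨alg, tPtB tPtA, hCor⟩

end Pool.Agent.Lib.MP_c29043_lc.SW
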