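import Pool.Agent.Lib.MP_c29043_lc.SW.Spec

/-!
# Covers of digraphs with separated weights: the rounds are monotone
-/

set_option autoImplicit false

open N68a2faeb N487b59b3 Pool.Agent.Lib.PolyTime

namespace Pool.Agent.Lib.MP_c29043_lc.SW

private theorem Mon_lo_ge (L0 H0 : ℕ → ℕ) (m : ℕ) (t : ℕ → ℕ) (v : ℕ) :
    L0 v ≤ lo L0 H0 m t v := by
  unfold lo
  split_ifs <;> omega

private theorem Mon_hi_le (L0 H0 : ℕ → ℕ) (m : ℕ) (t : ℕ → ℕ) (v : ℕ) :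
    hi L0 H0 m t v ≤ H0 v := by
  unfold hi
  split_ifs <;> omega

private theorem Mon_lo_mono (L0 H0 : ℕ → ℕ) (m : ℕ) (t t' : ℕ → ℕ) (v : ℕ) (h : t v ≤ t' v) :
    lo L0 H0 m t v ≤ lo L0 H0 m t' v := by
  unfold lo
  split_ifs <;> omega

private theorem Mon_hi_mono (L0 H0 : ℕ → ℕ) (m : ℕ) (t t' : ℕ → ℕ) (v : ℕ) (h : t v ≤ t' v) :
    hi L0 H0 m t v ≤ hi L0 H0 m t' v := by
  unfold hi
  split_ifs <;> omega

private theorem Mon_lo_hi (L0 H0 : ℕ → ℕ) (m : ℕ) (t t' : ℕ → ℕ) (v : ℕ) (h0 : L0 v ≤ H0 v)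
    (h : t v ≤ t' v) : lo L0 H0 m t v ≤ hi L0 H0 m t' v := by
  unfold lo hi
  split_ifs <;> omega

theorem tMon : S_Mon := by
  intro A lam m L0 H0 hI k
  have h00 : ∀ v, L0 v ≤ H0 v := by
    intro v
    rcases hI.width v with h | h <;> omega
  induction k with
  | zero =>
    intro v
    exact ⟨h00 v, Mon_lo_ge _ _ _ _ v, Mon_hi_le _ _ _ _ v⟩
  | succ k ih =>
    intro v
    have h1 : T A (it A L0 H0 m k).2 v ≤ T A (it A L0 H0 m k).1 v :=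
      T_anti (fun u => (ih u).1) v
    have h2 : T A (it A L0 H0 m k).2 v ≤ T A (it A L0 H0 m (k + 1)).2 v :=
      T_anti (fun u => (ih u).2.2) v
    have h3 : T A (it A L0 H0 m (k + 1)).1 v ≤ T A (it A L0 H0 m k).1 v :=
      T_anti (fun u => (ih u).2.1) v
    refine ⟨?_, ?_, ?_⟩
    · change lo L0 H0 m (T A (it A L0 H0 m k).2) v ≤ hi L0 H0 m (T A (it A L0 H0 m k).1) v
      exact Mon_lo_hi _ _ _ _ _ v (h00 v) h1
    · change lo L0 H0 m (T A (it A L0 H0 m k).2) v ≤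
        lo L0 H0 m (T A (it A L0 H0 m (k + 1)).2) v
      exact Mon_lo_mono _ _ _ _ _ v h2
    · change hi L0 H0 m (T A (it A L0 H0 m (k + 1)).1) v ≤
        hi L0 H0 m (T A (it A L0 H0 m k).1) v
      exact Mon_hi_mono _ _ _ _ _ v h3

end Pool.Agent.Lib.MP_c29043_lc.SW
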