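import Pool.Agent.Lib.MP_c29043_lc.SW.Hard3
import Pool.Agent.Lib.MP_c29043_lc.SW.Sharp

/-!
# Separated weights: the factor two is the exact threshold, already with two weights per scale
-/

set_option autoImplicit false

open N68a2faeb N487b59b3 Pool.Agent.Lib.PolyTime

namespace Pool.Agent.Lib.MP_c29043_lc

/-- **The threshold.**  `hM` is the polynomial time algorithm for the factor two. -/
theorem sep_sharp2 (hM : SW.S_Main) (r R : ℝ) :
    List.TFAE [CoversInP (SepRR r R),
      CoversInP fun A => (A.map Prod.fst).Nodup ∧ Bipartite A ∧ InDegLeTwo A ∧ SepRR r R A,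
      2 ≤ r ∨ GamesInP] := by
  tfae_have 1 → 2 := coversInP_mono fun A hA => hA.2.2.2
  tfae_have 2 → 3 := by
    intro h
    rcases le_or_gt 2 r with hr | hr
    · exact Or.inl hr
    · exact Or.inr (sep_hard3 hr h)
  tfae_have 3 → 1 := by
    rintro (hr | h)
    · exact coversInP_mono (fun A hA => sepR_sep hr hA.1) hM
    · exact coversInP_mono (fun A _ => trivial) (covers_of_games h)
  tfae_finish

end Pool.Agent.Lib.MP_c29043_lc
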