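import Pool.Agent.Lib.MP_c29043_lc.Solve

/-!
# Covers of digraphs with separated weights: definitions and statements of the modules

`T A x v = max (0, max over the arcs u → v of w - x u)`.  A stage shrinks an invariant box of
width `lam` (a weight) to an invariant box of width `m`, the next smaller weight or `0`.
-/

set_option autoImplicit false

open N68a2faeb N487b59b3 Pool.Agent.Lib.PolyTime

namespace Pool.Agent.Lib.MP_c29043_lc.SW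

/-- Of two different weights the larger one is at least twice the smaller one. -/
def Sep (A : List ((ℕ × ℕ) × ℕ)) : Prop := ∀ a ∈ A, ∀ b ∈ A, a.2 < b.2 → 2 * a.2 ≤ b.2

/-- `c` is `0` or a weight -/
def IsWt (A : List ((ℕ × ℕ) × ℕ)) (c : ℕ) : Prop := c = 0 ∨ ∃ e ∈ A, e.2 = c

/-- The invariant of the stage `lam`: lower corner `l`, upper corner `h`. -/
structure Inv (A : List ((ℕ × ℕ) × ℕ)) (lam : ℕ) (l h : ℕ → ℕ) : Prop where
  wt : IsWt A lam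
  width : ∀ v, h v = l v ∨ h v = l v + lam
  up : ∀ v, T A l v ≤ h v
  low : ∀ v, l v ≤ T A h v
  dis : ∀ e ∈ A, e.2 ≤ l e.1.1 + l e.1.2 ∨
    ∃ c, IsWt A c ∧ c ≤ lam ∧ e.2 = l e.1.1 + l e.1.2 + c

/-- `m` is the next weight below `lam`, or `0`, and it is separated from `lam`. -/
structure Gap (A : List ((ℕ × ℕ) × ℕ)) (lam m : ℕ) : Prop where
  lt : m < lam
  two : 2 * m ≤ lam
  wt : IsWt A m
  max : ∀ c, IsWt A c → c < lam → c ≤ m
  even : lam % 2 = 0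

/-- the new lower corner in a round; `t` is the image of the upper corner -/
def lo (L0 H0 : ℕ → ℕ) (m : ℕ) (t : ℕ → ℕ) (v : ℕ) : ℕ :=
  if H0 v - m ≤ t v then max (L0 v) (H0 v - m) else L0 v

/-- the new upper corner in a round; `t` is the image of the lower corner -/
def hi (L0 H0 : ℕ → ℕ) (m : ℕ) (t : ℕ → ℕ) (v : ℕ) : ℕ :=
  if t v ≤ L0 v + m then min (H0 v) (L0 v + m) else H0 v

/-- the corners after `k` rounds -/
def it (A : List ((ℕ × ℕ) × ℕ)) (L0 H0 : ℕ → ℕ) (m : ℕ) : ℕ → (ℕ → ℕ) × (ℕ → ℕ)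
  | 0 => (L0, H0)
  | k + 1 => (lo L0 H0 m (T A (it A L0 H0 m k).2), hi L0 H0 m (T A (it A L0 H0 m k).1))

/-- `L, H` do not change in a round. -/
structure Stab (A : List ((ℕ × ℕ) × ℕ)) (m : ℕ) (L0 H0 L H : ℕ → ℕ) : Prop where
  le : ∀ v, L v ≤ H v
  fl : ∀ v, L v = lo L0 H0 m (T A H) v
  fh : ∀ v, H v = hi L0 H0 m (T A L) v

/-- the lower corner at the end of a stage -/
def nl (L0 H0 L H : ℕ → ℕ) (v : ℕ) : ℕ :=
  if L v = L0 v ∧ H v = H0 v then (L0 v + H0 v) / 2 else L v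

/-- the upper corner at the end of a stage -/
def nh (L0 H0 L H : ℕ → ℕ) (v : ℕ) : ℕ :=
  if L v = L0 v ∧ H v = H0 v then (L0 v + H0 v) / 2 else H v

/-- The five kinds of vertices: fixed, unresolved, only high, only low, both. -/
inductive Kind (A : List ((ℕ × ℕ) × ℕ)) (lam m : ℕ) (L0 H0 L H : ℕ → ℕ) (v : ℕ) : Prop
  | fix (h0 : H0 v = L0 v) (h1 : L v = L0 v) (h2 : H v = L0 v)
      (h3 : nl L0 H0 L H v = L0 v) (h4 : nh L0 H0 L H v = L0 v)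
  | unres (h0 : H0 v = L0 v + lam) (h1 : L v = L0 v) (h2 : H v = L0 v + lam)
      (h3 : nl L0 H0 L H v = L0 v + lam / 2) (h4 : nh L0 H0 L H v = L0 v + lam / 2)
      (h5 : T A H v < L0 v + (lam - m)) (h6 : L0 v + m < T A L v)
  | high (h0 : H0 v = L0 v + lam) (h1 : L v = L0 v + (lam - m)) (h2 : H v = L0 v + lam)
      (h3 : nl L0 H0 L H v = L0 v + (lam - m)) (h4 : nh L0 H0 L H v = L0 v + lam)
      (h5 : L0 v + (lam - m) ≤ T A H v) (h6 : L0 v + m < T A L v)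
  | low (h0 : H0 v = L0 v + lam) (h1 : L v = L0 v) (h2 : H v = L0 v + m)
      (h3 : nl L0 H0 L H v = L0 v) (h4 : nh L0 H0 L H v = L0 v + m)
      (h5 : T A H v < L0 v + (lam - m)) (h6 : T A L v ≤ L0 v + m)
  | both (h : lam = 2 * m) (h0 : H0 v = L0 v + lam) (h1 : L v = L0 v + m)
      (h2 : H v = L0 v + m) (h3 : nl L0 H0 L H v = L0 v + m) (h4 : nh L0 H0 L H v = L0 v + m)
      (h5 : T A H v = L0 v + m) (h6 : T A L v = L0 v + m)

/-! ### The algorithm on lists -/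

/-- one round -/
def rnd (V : List ℕ) (A : List ((ℕ × ℕ) × ℕ)) (l0 h0 : List (ℕ × ℕ)) (m : ℕ)
    (p : List (ℕ × ℕ) × List (ℕ × ℕ)) : List (ℕ × ℕ) × List (ℕ × ℕ) :=
  (tab V (lo (vec l0) (vec h0) m (T A (vec p.2))), tab V (hi (vec l0) (vec h0) m (T A (vec p.1))))

/-- all rounds of a stage -/
def rnds (A : List ((ℕ × ℕ) × ℕ)) (l0 h0 : List (ℕ × ℕ)) (m : ℕ) :
    List (ℕ × ℕ) × List (ℕ × ℕ) :=
  (verts A ++ verts A).foldl (fun p _ => rnd (verts A) A l0 h0 m p) (l0, h0)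

/-- the next smaller weight, or `0` -/
def nxt (A : List ((ℕ × ℕ) × ℕ)) (lam : ℕ) : ℕ :=
  lmax ((A.filter fun e => decide (e.2 < lam)).map fun e => e.2)

/-- one stage; the state is `(lam, lower corner, upper corner)` -/
def stg (A : List ((ℕ × ℕ) × ℕ)) (s : ℕ × (List (ℕ × ℕ) × List (ℕ × ℕ))) :
    ℕ × (List (ℕ × ℕ) × List (ℕ × ℕ)) :=
  (nxt A s.1,
    (tab (verts A) (nl (vec s.2.1) (vec s.2.2) (vec (rnds A s.2.1 s.2.2 (nxt A s.1)).1)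
        (vec (rnds A s.2.1 s.2.2 (nxt A s.1)).2)),
      tab (verts A) (nh (vec s.2.1) (vec s.2.2) (vec (rnds A s.2.1 s.2.2 (nxt A s.1)).1)
        (vec (rnds A s.2.1 s.2.2 (nxt A s.1)).2))))

/-- the initial state -/
def ini (A : List ((ℕ × ℕ) × ℕ)) : ℕ × (List (ℕ × ℕ) × List (ℕ × ℕ)) :=
  (wts A, (tab (verts A) (fun _ => 0), tab (verts A) (fun _ => wts A)))

/-- the algorithm -/
def alg (A : List ((ℕ × ℕ) × ℕ)) : List (ℕ × ℕ) :=
  (A.foldl (fun s _ => stg A s) (ini A)).2.1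

/-- the invariant for states -/
structure St (A : List ((ℕ × ℕ) × ℕ)) (s : ℕ × (List (ℕ × ℕ) × List (ℕ × ℕ))) : Prop where
  inv : Inv A s.1 (vec s.2.1) (vec s.2.2)
  supp : ∀ v, v ∉ verts A → vec s.2.1 v = 0 ∧ vec s.2.2 v = 0

/-! ### Statements -/

/-- Mon: the rounds are monotone. -/
def S_Mon : Prop := ∀ (A : List ((ℕ × ℕ) × ℕ)) (lam m : ℕ) (L0 H0 : ℕ → ℕ), Inv A lam L0 H0 →
  ∀ k v, (it A L0 H0 m k).1 v ≤ (it A L0 H0 m k).2 v ∧
    (it A L0 H0 m k).1 v ≤ (it A L0 H0 m (k + 1)).1 v ∧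
    (it A L0 H0 m (k + 1)).2 v ≤ (it A L0 H0 m k).2 v

/-- Fix: the rounds become stable. -/
def S_Fix : Prop := ∀ (A : List ((ℕ × ℕ) × ℕ)) (m : ℕ) (L0 H0 : ℕ → ℕ),
  (∀ v, v ∉ verts A → L0 v = 0 ∧ H0 v = 0) →
  (∀ k v, (it A L0 H0 m k).1 v ≤ (it A L0 H0 m k).2 v ∧
    (it A L0 H0 m k).1 v ≤ (it A L0 H0 m (k + 1)).1 v ∧
    (it A L0 H0 m (k + 1)).2 v ≤ (it A L0 H0 m k).2 v) →
  Stab A m L0 H0 (it A L0 H0 m (2 * (verts A).length)).1 (it A L0 H0 m (2 * (verts A).length)).2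

/-- Kin: the kinds of vertices. -/
def S_Kin : Prop := ∀ (A : List ((ℕ × ℕ) × ℕ)) (lam m : ℕ) (L0 H0 L H : ℕ → ℕ),
  Inv A lam L0 H0 → m < lam → 2 * m ≤ lam → Stab A m L0 H0 L H →
  ∀ v, Kind A lam m L0 H0 L H v

/-- Mid: the image of the new box at an unresolved vertex. -/
def S_Mid : Prop := ∀ (A : List ((ℕ × ℕ) × ℕ)) (lam m : ℕ) (L0 H0 L H : ℕ → ℕ),
  Inv A lam L0 H0 → Gap A lam m → (∀ v, Kind A lam m L0 H0 L H v) →
  ∀ v, H0 v = L0 v + lam → T A H v < L0 v + (lam - m) → L0 v + m < T A L v →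
    T A (nl L0 H0 L H) v ≤ L0 v + lam / 2 ∧ L0 v + lam / 2 ≤ T A (nh L0 H0 L H) v

/-- Dis: the reduced weights stay in the list of weights. -/
def S_Dis : Prop := ∀ (A : List ((ℕ × ℕ) × ℕ)) (lam m : ℕ) (L0 H0 L H : ℕ → ℕ),
  Inv A lam L0 H0 → Gap A lam m → (∀ v, Kind A lam m L0 H0 L H v) →
  (∀ v, H0 v = L0 v + lam → T A H v < L0 v + (lam - m) → L0 v + m < T A L v →
    T A (nl L0 H0 L H) v ≤ L0 v + lam / 2) →
  ∀ e ∈ A, e.2 ≤ nl L0 H0 L H e.1.1 + nl L0 H0 L H e.1.2 ∨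
    ∃ c, IsWt A c ∧ c ≤ m ∧ e.2 = nl L0 H0 L H e.1.1 + nl L0 H0 L H e.1.2 + c

/-- Stg: the stage. -/
def S_Stg : Prop := ∀ (A : List ((ℕ × ℕ) × ℕ)) (lam m : ℕ) (L0 H0 L H : ℕ → ℕ),
  Inv A lam L0 H0 → (Gap A lam m ∨ lam = 0 ∧ m = 0) → Stab A m L0 H0 L H →
  Inv A m (nl L0 H0 L H) (nh L0 H0 L H)

/-- Lst: the rounds on lists. -/
def S_Lst : Prop := ∀ (A : List ((ℕ × ℕ) × ℕ)) (l0 h0 : List (ℕ × ℕ)) (m : ℕ),
  (∀ v, v ∉ verts A → vec l0 v = 0 ∧ vec h0 v = 0) →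
  vec (rnds A l0 h0 m).1 = (it A (vec l0) (vec h0) m (2 * (verts A).length)).1 ∧
  vec (rnds A l0 h0 m).2 = (it A (vec l0) (vec h0) m (2 * (verts A).length)).2

/-- Nxt: the next weight. -/
def S_Nxt : Prop := ∀ (A : List ((ℕ × ℕ) × ℕ)) (lam : ℕ), (∀ e ∈ A, Even e.2) → Sep A →
  IsWt A lam →
  (0 < lam → Gap A lam (nxt A lam)) ∧ (lam = 0 → nxt A lam = 0) ∧
  (0 < lam → (A.filter fun e => decide (e.2 ≤ nxt A lam)).length <
    (A.filter fun e => decide (e.2 ≤ lam)).length)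

/-- Ini: the initial state. -/
def S_Ini : Prop := ∀ A : List ((ℕ × ℕ) × ℕ), St A (ini A)

/-- Stp: a stage preserves the invariant. -/
def S_Stp : Prop := ∀ (A : List ((ℕ × ℕ) × ℕ)) (s : ℕ × (List (ℕ × ℕ) × List (ℕ × ℕ))),
  (∀ e ∈ A, Even e.2) → Sep A → St A s → St A (stg A s)

/-- Cor: the algorithm is correct. -/
def S_Cor : Prop := ∀ A : List ((ℕ × ℕ) × ℕ), (∀ e ∈ A, Even e.2) → Sep A →
  IsCover A (vec (alg A))

/-- PtA: the rounds are polynomial time. -/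
def S_PtA : Prop := IsPolyTime
  fun p : List ((ℕ × ℕ) × ℕ) × ((List (ℕ × ℕ) × List (ℕ × ℕ)) × ℕ) =>
    rnds p.1 p.2.1.1 p.2.1.2 p.2.2

/-- PtB: the algorithm is polynomial time. -/
def S_PtB : Prop := IsPolyTime alg

/-- Main: the main theorem. -/
def S_Main : Prop := CoversInP Sep

end Pool.Agent.Lib.MP_c29043_lc.SW
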